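import Mathlib

set_option autoImplicit false

/-! # Lower central filtration, spanning by left-normed commutators -/

open scoped commutatorElement

namespace Pool.Agent.V1148.VG

open Subgroup

section
variable {G : Type*} [Group G]

/-- `gam G n` is the `n`-th term of the lower central series of `G`, `gam G 1 = G`. -/
def gam (G : Type*) [Group G] (n : ℕ) : Subgroup G := (⊤ : Subgroup G).lowerCentralSeries (n - 1)

theorem gam_zero : gam G 0 = ⊤ := rfl
theorem gam_one : gam G 1 = ⊤ := rfl
theorem gam_succ (n : ℕ) (hn : 1 ≤ n) : gam G (n + 1) = ⁅gam G n, ⊤⁆ := by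
  obtain ⟨k, rfl⟩ : ∃ k, n = k + 1 := ⟨n - 1, by omega⟩
  exact Subgroup.lowerCentralSeries_succ _ _

instance gam_normal (n : ℕ) : (gam G n).Normal := by unfold gam; infer_instance

theorem gam_anti {m n : ℕ} (h : m ≤ n) : gam G n ≤ gam G m :=
  Subgroup.lowerCentralSeries_antitone _ (by omega)

theorem three (N H1 H2 H3 : Subgroup G) [N.Normal] (h1 : ⁅⁅H2, H3⁆, H1⁆ ≤ N)
    (h2 : ⁅⁅H3, H1⁆, H2⁆ ≤ N) : ⁅⁅H1, H2⁆, H3⁆ ≤ N := by
  have key : ∀ X : Subgroup G, X ≤ N ↔ X.map (QuotientGroup.mk' N) = ⊥ := by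
    intro X
    rw [Subgroup.map_eq_bot_iff, QuotientGroup.ker_mk']
  rw [key, Subgroup.map_commutator, Subgroup.map_commutator] at h1 h2 ⊢
  exact Subgroup.commutator_commutator_eq_bot_of_rotate h1 h2

theorem gam_comm (j : ℕ) : ∀ i, ⁅gam G i, gam G j⁆ ≤ gam G (i + j) := by
  induction j with
  | zero => intro i; exact Subgroup.commutator_le_left _ _
  | succ j ih =>
    intro i
    rcases Nat.eq_zero_or_pos i with rfl | hi
    · rw [Nat.zero_add]; exact Subgroup.commutator_le_right _ _
    rcases Nat.eq_zero_or_pos j with rfl | hj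
    · exact (gam_succ i hi).ge
    rw [Subgroup.commutator_comm, gam_succ j hj]
    apply three
    · rw [Subgroup.commutator_comm ⊤, ← gam_succ i hi]
      exact (ih (i + 1)).trans (le_of_eq (by congr 1; omega))
    · have h1 := Subgroup.commutator_mono (ih i) (le_refl (⊤ : Subgroup G))
      rw [← gam_succ (i + j) (by omega)] at h1
      exact h1.trans (le_of_eq (by congr 1))

theorem gam_mem {i j : ℕ} {x y : G} (hx : x ∈ gam G i) (hy : y ∈ gam G j) :
    ⁅x, y⁆ ∈ gam G (i + j) := gam_comm j i (Subgroup.commutator_mem_commutator hx hy)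

theorem gam_mem' {i j k : ℕ} {x y : G} (hx : x ∈ gam G i) (hy : y ∈ gam G j) (h : k ≤ i + j) :
    ⁅x, y⁆ ∈ gam G k := gam_anti h (gam_mem hx hy)

theorem mem_gam_one (x : G) : x ∈ gam G 1 := Subgroup.mem_top x

theorem map_gam {H : Type*} [Group H] (f : G →* H) (n : ℕ) : (gam G n).map f ≤ gam H n := by
  unfold gam
  exact Subgroup.lowerCentralSeries.map f _

theorem map_mem_gam {H : Type*} [Group H] (f : G →* H) {n : ℕ} {x : G} (hx : x ∈ gam G n) :
    f x ∈ gam H n := map_gam f n ⟨x, hx, rfl⟩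

theorem map_gam_surj {H : Type*} [Group H] (f : G →* H) (hf : Function.Surjective f) (n : ℕ) :
    (gam G n).map f = gam H n := by
  unfold gam
  rw [Subgroup.map_lowerCentralSeries, Subgroup.map_top_of_surjective f hf]

/-! ### Congruences -/

theorem comm_mul_left (a b c : G) : ⁅a * b, c⁆ = a * ⁅b, c⁆ * a⁻¹ * ⁅a, c⁆ := by
  simp only [commutatorElement_def]; group

theorem comm_mul_right (a b c : G) : ⁅a, b * c⁆ = ⁅a, b⁆ * (b * ⁅a, c⁆ * b⁻¹) := by
  simp only [commutatorElement_def]; group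

/-- left-normed commutators -/
def lc {ι : Type*} (x : ι → G) : List ι → G
  | [] => 1
  | i :: l => l.foldl (fun u t => ⁅u, x t⁆) (x i)

theorem lc_append {ι : Type*} (x : ι → G) (l : List ι) (hl : l ≠ []) (t : ι) :
    lc x (l ++ [t]) = ⁅lc x l, x t⁆ := by
  cases l with
  | nil => exact absurd rfl hl
  | cons i l => simp [lc]

theorem map_lc {ι H : Type*} [Group H] (f : G →* H) (x : ι → G) (l : List ι) :
    f (lc x l) = lc (fun i => f (x i)) l := by
  induction l using List.reverseRecOn with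
  | nil => simp [lc]
  | append_singleton l t ih =>
    by_cases hl : l = []
    · subst hl; simp [lc]
    · rw [lc_append x l hl, lc_append _ l hl, map_commutatorElement, ih]

theorem lc_mem_gam {ι : Type*} (x : ι → G) (l : List ι) : lc x l ∈ gam G l.length := by
  induction l using List.reverseRecOn with
  | nil => exact Subgroup.one_mem _
  | append_singleton l t ih =>
    by_cases hl : l = []
    · subst hl; simpa [lc] using mem_gam_one _
    · rw [lc_append x l hl, List.length_append, List.length_singleton]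
      exact gam_mem ih (mem_gam_one _)

/-- weights -/
theorem lc_mem_weight {ι : Type*} (x : ι → G) (w : ι → ℕ) (hw : ∀ i, x i ∈ gam G (w i))
    (l : List ι) : lc x l ∈ gam G (l.map w).sum := by
  induction l using List.reverseRecOn with
  | nil => exact Subgroup.one_mem _
  | append_singleton l t ih =>
    by_cases hl : l = []
    · subst hl; simpa [lc] using hw t
    · rw [lc_append x l hl, List.map_append, List.sum_append]
      refine gam_mem ih ?_
      simpa using hw t

/-- bilinearity, left: if `⁅x, q⁆ ∈ S` for `x` in a set, then for all of its closure; here `S`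
contains the next term -/
theorem closure_comm_left {s : Set G} {S N : Subgroup G} [N.Normal] (hNS : N ≤ S) {q : G}
    (hs : ∀ p ∈ s, ⁅p, q⁆ ∈ S) (hc : ∀ g h : G, g ∈ Subgroup.closure s → ⁅g, q⁆ ∈ S → 
      h * ⁅g, q⁆ * h⁻¹ * ⁅g, q⁆⁻¹ ∈ N) :
    ∀ p ∈ Subgroup.closure s, ⁅p, q⁆ ∈ S := by
  intro p hp
  induction hp using Subgroup.closure_induction with
  | mem x hx => exact hs x hx
  | one => simp
  | mul a b ha hb iha ihb =>
    rw [comm_mul_left]
    have h1 := hc b a hb ihb
    have h2 : a * ⁅b, q⁆ * a⁻¹ = (a * ⁅b, q⁆ * a⁻¹ * ⁅b, q⁆⁻¹) * ⁅b, q⁆ := by group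
    rw [h2]
    exact S.mul_mem (S.mul_mem (hNS h1) ihb) iha
  | inv a ha iha =>
    have h1 := hc a a⁻¹ ha iha
    have h2 : ⁅a⁻¹, q⁆ = ((a⁻¹ * ⁅a, q⁆ * (a⁻¹)⁻¹ * ⁅a, q⁆⁻¹) * ⁅a, q⁆)⁻¹ := by
      simp only [commutatorElement_def]; group
    rw [h2]
    exact S.inv_mem (S.mul_mem (hNS h1) iha)

end

end Pool.Agent.V1148.VG
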