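import Pool.Agent.V1148.VG.A

set_option autoImplicit false

open scoped commutatorElement

namespace Pool.Agent.V1148.VG

open Subgroup

section
variable {G : Type*} [Group G]

theorem closure_sup_induction {T : Set G} {N : Subgroup G} {p : G → Prop}
    (hT : ∀ t ∈ T, p t) (hN : ∀ t ∈ N, p t) (h1 : p 1) (hm : ∀ a b, p a → p b → p (a * b))
    (hi : ∀ a, p a → p a⁻¹) : ∀ w ∈ closure T ⊔ N, p w := by
  intro w hw
  rw [← Subgroup.closure_eq N, ← Subgroup.closure_union] at hw
  induction hw using Subgroup.closure_induction with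
  | mem x hx => exact hx.elim (hT x) (hN x)
  | one => exact h1
  | mul a b _ _ iha ihb => exact hm a b iha ihb
  | inv a _ iha => exact hi a iha

theorem sup_normal {T : Set G} {N : Subgroup G} [hN : N.Normal]
    (h : ∀ t ∈ T, ∀ g : G, ⁅g, t⁆ ∈ N) : (closure T ⊔ N).Normal := by
  constructor
  intro n hn g
  refine closure_sup_induction (p := fun n => g * n * g⁻¹ ∈ closure T ⊔ N) ?_ ?_ ?_ ?_ ?_ n hn
  · intro t ht
    have h1 : g * t * g⁻¹ = ⁅g, t⁆ * t := by simp [commutatorElement_def]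
    rw [h1]
    exact mul_mem (mem_sup_right (h t ht g)) (mem_sup_left (subset_closure ht))
  · intro t ht
    exact mem_sup_right (hN.conj_mem t ht g)
  · simp
  · intro a b ha hb
    have : g * (a * b) * g⁻¹ = (g * a * g⁻¹) * (g * b * g⁻¹) := by group
    rw [this]; exact mul_mem ha hb
  · intro a ha
    have : g * a⁻¹ * g⁻¹ = (g * a * g⁻¹)⁻¹ := by group
    rw [this]; exact inv_mem ha

/-- commutators of closures -/
theorem comm_closure {A B : Set G} {S : Subgroup G} [hS : S.Normal]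
    (h : ∀ a ∈ A, ∀ b ∈ B, ⁅a, b⁆ ∈ S) : ∀ a ∈ closure A, ∀ b ∈ closure B, ⁅a, b⁆ ∈ S := by
  intro a ha b hb
  induction ha using Subgroup.closure_induction with
  | mem x hx =>
    induction hb using Subgroup.closure_induction with
    | mem y hy => exact h x hx y hy
    | one => simp
    | mul c d _ _ ihc ihd =>
      rw [comm_mul_right]; exact mul_mem ihc (hS.conj_mem _ ihd _)
    | inv c _ ihc =>
      have : ⁅x, c⁻¹⁆ = c⁻¹ * ⁅x, c⁆⁻¹ * c⁻¹⁻¹ := by simp only [commutatorElement_def]; group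
      rw [this]; exact hS.conj_mem _ (inv_mem ihc) _
  | one => simp
  | mul c d _ _ ihc ihd =>
    rw [comm_mul_left]; exact mul_mem (hS.conj_mem _ ihd _) ihc
  | inv c _ ihc =>
    have : ⁅c⁻¹, b⁆ = c⁻¹ * ⁅c, b⁆⁻¹ * c⁻¹⁻¹ := by simp only [commutatorElement_def]; group
    rw [this]; exact hS.conj_mem _ (inv_mem ihc) _

theorem comm_closure_sup {A B : Set G} {M N S : Subgroup G} [hS : S.Normal]
    (h : ∀ a ∈ A, ∀ b ∈ B, ⁅a, b⁆ ∈ S) (hM : ∀ a ∈ M, ∀ b : G, b ∈ closure B ⊔ N → ⁅a, b⁆ ∈ S)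
    (hN : ∀ a : G, a ∈ closure A ⊔ M → ∀ b ∈ N, ⁅a, b⁆ ∈ S) :
    ∀ a ∈ closure A ⊔ M, ∀ b ∈ closure B ⊔ N, ⁅a, b⁆ ∈ S := by
  have e1 : closure A ⊔ M = closure (A ∪ M) := by rw [Subgroup.closure_union, Subgroup.closure_eq]
  have e2 : closure B ⊔ N = closure (B ∪ N) := by rw [Subgroup.closure_union, Subgroup.closure_eq]
  intro a ha b hb
  rw [e1] at ha; rw [e2] at hb
  refine comm_closure (A := A ∪ M) (B := B ∪ N) ?_ a ha b hb
  rintro c (hc | hc) d (hd | hd)
  · exact h c hc d hd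
  · exact hN c (mem_sup_left (subset_closure hc)) d hd
  · exact hM c hc d (mem_sup_left (subset_closure hd))
  · exact hM c hc d (mem_sup_right hd)

/-- the left-normed commutators of weight `m` -/
def LC {ι : Type*} (x : ι → G) (m : ℕ) : Set G := {g | ∃ l : List ι, l.length = m ∧ lc x l = g}

theorem LC_mem {ι : Type*} (x : ι → G) (m : ℕ) : ∀ g ∈ LC x m, g ∈ gam G m := by
  rintro _ ⟨l, rfl, rfl⟩; exact lc_mem_gam x l

theorem LC_central {ι : Type*} (x : ι → G) (m : ℕ) (t : G) (ht : t ∈ LC x m) (g : G) :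
    ⁅g, t⁆ ∈ gam G (m + 1) := by
  have := gam_mem (mem_gam_one g) (LC_mem x m t ht)
  rwa [add_comm] at this

theorem span {ι : Type*} (x : ι → G) (hx : closure (Set.range x) = ⊤) (m : ℕ) (hm : 1 ≤ m) :
    gam G m ≤ closure (LC x m) ⊔ gam G (m + 1) := by
  induction m, hm using Nat.le_induction with
  | base =>
    rw [gam_one, ← hx]
    refine le_trans (Subgroup.closure_mono ?_) le_sup_left
    rintro _ ⟨i, rfl⟩
    exact ⟨[i], rfl, rfl⟩
  | succ m hm ih =>
    have : (closure (LC x (m + 1)) ⊔ gam G (m + 1 + 1)).Normal :=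
      sup_normal (LC_central x (m + 1))
    rw [gam_succ m hm, Subgroup.commutator_le]
    intro p hp q _
    have hq : q ∈ closure (Set.range x) ⊔ (⊥ : Subgroup G) := by rw [hx]; simp
    refine comm_closure_sup (A := LC x m) (M := gam G (m + 1)) ?_ ?_ ?_ p (ih hp) q hq
    · rintro _ ⟨l, hl, rfl⟩ _ ⟨i, rfl⟩
      refine mem_sup_left (subset_closure ⟨l ++ [i], by simp [hl], ?_⟩)
      rw [lc_append]; rintro rfl; simp at hl; omega
    · intro a ha b _
      exact mem_sup_right (gam_mem ha (mem_gam_one b))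
    · intro a _ b hb
      rw [Subgroup.mem_bot] at hb; subst hb; simp

/-- the elimination lemma -/
theorem elim1 {T : Set G} {N : Subgroup G} [hN : N.Normal]
    (h : ∀ t ∈ T, ∀ g : G, ⁅g, t⁆ ∈ N) (π : G →* G) (hπN : ∀ g ∈ N, π g ∈ N)
    (hT : ∀ t ∈ T, π t = 1 ∨ π t = t) {w : G} (hw : w ∈ closure T ⊔ N) (hπ : π w ∈ N) :
    w ∈ closure {t ∈ T | π t = 1} ⊔ N := by
  have hS : (closure {t ∈ T | π t = 1} ⊔ N).Normal := sup_normal fun t ht g => h t ht.1 g
  have key : w * (π w)⁻¹ ∈ closure {t ∈ T | π t = 1} ⊔ N := by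
    refine closure_sup_induction (p := fun w => w * (π w)⁻¹ ∈ closure {t ∈ T | π t = 1} ⊔ N)
      ?_ ?_ ?_ ?_ ?_ w hw
    · intro t ht
      rcases hT t ht with h1 | h1
      · rw [h1, inv_one, mul_one]; exact mem_sup_left (subset_closure ⟨ht, h1⟩)
      · rw [h1, mul_inv_cancel]; exact one_mem _
    · intro t ht
      exact mem_sup_right (mul_mem ht (inv_mem (hπN t ht)))
    · simp
    · intro a b ha hb
      have : a * b * (π (a * b))⁻¹ = a * (b * (π b)⁻¹) * a⁻¹ * (a * (π a)⁻¹) := by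
        rw [map_mul]; group
      rw [this]
      exact mul_mem (hS.conj_mem _ hb _) ha
    · intro a ha
      have : a⁻¹ * (π a⁻¹)⁻¹ = a⁻¹ * (a * (π a)⁻¹)⁻¹ * a⁻¹⁻¹ := by
        rw [map_inv]; group
      rw [this]
      exact hS.conj_mem _ (inv_mem ha) _
  have : w = w * (π w)⁻¹ * π w := by group
  rw [this]
  exact mul_mem key (mem_sup_right hπ)

theorem elim {n : ℕ} {T : Set G} {N : Subgroup G} [hN : N.Normal]
    (h : ∀ t ∈ T, ∀ g : G, ⁅g, t⁆ ∈ N) (π : Fin n → G →* G) (hπN : ∀ i, ∀ g ∈ N, π i g ∈ N)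
    (hT : ∀ i, ∀ t ∈ T, π i t = 1 ∨ π i t = t) {w : G} (hw : w ∈ closure T ⊔ N)
    (hπ : ∀ i, π i w ∈ N) : w ∈ closure {t ∈ T | ∀ i, π i t = 1} ⊔ N := by
  have key : ∀ k ≤ n, w ∈ closure {t ∈ T | ∀ i : Fin n, (i : ℕ) < k → π i t = 1} ⊔ N := by
    intro k
    induction k with
    | zero =>
      intro _
      refine (sup_le_sup_right (Subgroup.closure_mono ?_) N) hw
      intro t ht
      exact ⟨ht, fun i hi => absurd hi (by omega)⟩
    | succ k ih =>
      intro hk
      have h1 := elim1 (T := {t ∈ T | ∀ i : Fin n, (i : ℕ) < k → π i t = 1}) (N := N)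
        (fun t ht g => h t ht.1 g) (π ⟨k, by omega⟩) (hπN _) (fun t ht => hT _ t ht.1)
        (ih (by omega)) (hπ _)
      refine (sup_le_sup_right (Subgroup.closure_mono ?_) N) h1
      rintro t ⟨⟨h2, h3⟩, h4⟩
      refine ⟨h2, fun i hi => ?_⟩
      rcases Nat.lt_or_ge (i : ℕ) k with h5 | h5
      · exact h3 i h5
      · have : i = ⟨k, by omega⟩ := Fin.ext (by simp; omega)
        rw [this]; exact h4
  refine (sup_le_sup_right (Subgroup.closure_mono ?_) N) (key n le_rfl)
  rintro t ⟨h2, h3⟩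
  exact ⟨h2, fun i => h3 i i.2⟩

/-- the endomorphisms `π i` of a group with generators `x i` -/
structure Erase {n : ℕ} (x : Fin n → G) (π : Fin n → G →* G) : Prop where
  same : ∀ i, π i (x i) = 1
  other : ∀ i j, j ≠ i → π i (x j) = x j

theorem lc_one_mem {ι : Type*} (x : ι → G) (l : List ι) (i : ι) (hi : i ∈ l) (hx : x i = 1) :
    lc x l = 1 := by
  induction l using List.reverseRecOn with
  | nil => simp at hi
  | append_singleton l t ih =>
    by_cases hl : l = []
    · subst hl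
      simp only [List.nil_append, List.mem_singleton] at hi
      subst hi
      simp [lc, hx]
    · rw [lc_append x l hl]
      rcases List.mem_append.1 hi with h | h
      · rw [ih h]; simp
      · rw [List.mem_singleton] at h; subst h; rw [hx]; simp

theorem lc_congr {ι : Type*} (x y : ι → G) (l : List ι) (h : ∀ i ∈ l, x i = y i) :
    lc x l = lc y l := by
  induction l using List.reverseRecOn with
  | nil => rfl
  | append_singleton l t ih =>
    by_cases hl : l = []
    · subst hl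
      simpa [lc] using h t (by simp)
    · rw [lc_append x l hl, lc_append y l hl, ih (fun i hi => h i (by simp [hi])),
        h t (by simp)]

theorem Erase.lc {n : ℕ} {x : Fin n → G} {π : Fin n → G →* G} (h : Erase x π) (i : Fin n)
    (l : List (Fin n)) : (i ∈ l → π i (lc x l) = 1) ∧ (i ∉ l → π i (lc x l) = lc x l) := by
  constructor
  · intro hi
    rw [map_lc]
    exact lc_one_mem _ l i hi (h.same i)
  · intro hi
    rw [map_lc]
    exact lc_congr _ _ l fun j hj => h.other i j (fun e => hi (e ▸ hj))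

/-- full left-normed commutators of weight `m` -/
def FLC {n : ℕ} (x : Fin n → G) (m : ℕ) : Set G :=
  {g | ∃ l : List (Fin n), l.length = m ∧ (∀ i, i ∈ l) ∧ lc x l = g}

theorem full {n : ℕ} {x : Fin n → G} (hx : closure (Set.range x) = ⊤) {π : Fin n → G →* G}
    (h : Erase x π) (m : ℕ) (hm : 1 ≤ m) {w : G} (hw : w ∈ gam G m) (hπ : ∀ i, π i w = 1) :
    w ∈ closure (FLC x m) ⊔ gam G (m + 1) := by
  have h1 := elim (T := LC x m) (N := gam G (m + 1)) (LC_central x m) π
    (fun i g hg => map_mem_gam _ hg) (by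
      rintro i _ ⟨l, hl, rfl⟩
      by_cases hi : i ∈ l
      · exact Or.inl ((h.lc i l).1 hi)
      · exact Or.inr ((h.lc i l).2 hi)) (span x hx m hm hw) (fun i => by rw [hπ i]; exact one_mem _)
  refine (show closure {t ∈ LC x m | ∀ i, π i t = 1} ⊔ gam G (m + 1) ≤
    closure (FLC x m) ⊔ gam G (m + 1) from sup_le ?_ le_sup_right) h1
  rw [closure_le]
  rintro _ ⟨⟨l, hl, rfl⟩, h2⟩
  by_cases h3 : ∀ i, i ∈ l
  · exact mem_sup_left (subset_closure ⟨l, hl, h3, rfl⟩)
  · push Not at h3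
    obtain ⟨i, hi⟩ := h3
    have h4 := h2 i
    rw [(h.lc i l).2 hi] at h4
    rw [h4]; exact one_mem _

theorem mem_gam_of_erase {n : ℕ} {x : Fin n → G} (hx : closure (Set.range x) = ⊤)
    {π : Fin n → G →* G} (h : Erase x π) {w : G} (hπ : ∀ i, π i w = 1) : w ∈ gam G n := by
  have key : ∀ m, m ≤ n → w ∈ gam G m := by
    intro m
    induction m with
    | zero => intro _; exact Subgroup.mem_top _
    | succ m ih =>
      intro hm
      rcases Nat.eq_zero_or_pos m with rfl | hm0
      · exact Subgroup.mem_top _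
      have h1 := full hx h m hm0 (ih (by omega)) hπ
      refine (show closure (FLC x m) ⊔ gam G (m + 1) ≤ gam G (m + 1) from
        sup_le ?_ le_rfl) h1
      rw [closure_le]
      rintro _ ⟨l, hl, h2, rfl⟩
      exfalso
      have h3 : l.toFinset = Finset.univ := by ext i; simp [h2 i]
      have h4 := List.toFinset_card_le l
      rw [h3, Finset.card_univ, Fintype.card_fin, hl] at h4
      omega
  exact key n le_rfl

end

end Pool.Agent.V1148.VG
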