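import Pool.Agent.V1148.VG.B

set_option autoImplicit false

open scoped commutatorElement

namespace Pool.Agent.V1148.VG

open Subgroup

section
variable {G : Type*} [Group G]

/-- the second derived subgroup -/
def der2 (G : Type*) [Group G] : Subgroup G :=
  ⁅⁅(⊤ : Subgroup G), (⊤ : Subgroup G)⁆, ⁅(⊤ : Subgroup G), (⊤ : Subgroup G)⁆⁆

instance : (der2 G).Normal := by unfold der2; infer_instance

theorem gam_two : gam G 2 = ⁅(⊤ : Subgroup G), ⊤⁆ := by
  rw [gam_succ 1 le_rfl, gam_one]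

theorem der2_eq : der2 G = ⁅gam G 2, gam G 2⁆ := by rw [gam_two]; rfl

/-- metabelian -/
def Metab (G : Type*) [Group G] : Prop := ∀ u ∈ gam G 2, ∀ v ∈ gam G 2, u * v = v * u

theorem comm_mem_two (a b : G) : ⁅a, b⁆ ∈ gam G 2 := gam_mem (mem_gam_one a) (mem_gam_one b)

variable (h : Metab G)
include h

theorem Metab.mul {u v : G} (hu : u ∈ gam G 2) (hv : v ∈ gam G 2) (y : G) :
    ⁅u * v, y⁆ = ⁅u, y⁆ * ⁅v, y⁆ := by
  rw [comm_mul_left, h u hu ⁅v, y⁆ (comm_mem_two _ _), mul_inv_cancel_right,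
    h _ (comm_mem_two _ _) _ (comm_mem_two _ _)]

theorem Metab.inv {u : G} (hu : u ∈ gam G 2) (y : G) : ⁅u⁻¹, y⁆ = ⁅u, y⁆⁻¹ := by
  have := h.mul hu (inv_mem hu) y
  rw [mul_inv_cancel, commutatorElement_one_left] at this
  exact eq_inv_of_mul_eq_one_right this.symm

theorem Metab.swap {u : G} (hu : u ∈ gam G 2) (y z : G) : ⁅⁅u, y⁆, z⁆ = ⁅⁅u, z⁆, y⁆ := by
  have hb : y * u * y⁻¹ ∈ gam G 2 := (gam_normal 2).conj_mem _ hu _
  have hc : z * u * z⁻¹ ∈ gam G 2 := (gam_normal 2).conj_mem _ hu _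
  have hd : z * (y * u * y⁻¹) * z⁻¹ ∈ gam G 2 := (gam_normal 2).conj_mem _ hb _
  have e : y * (z * u * z⁻¹) * y⁻¹ = z * (y * u * y⁻¹) * z⁻¹ := by
    have h1 := h (y⁻¹ * z⁻¹ * y * z) (by
      have := comm_mem_two (y⁻¹) (z⁻¹)
      simpa [commutatorElement_def] using this) u hu
    have h2 : z * (y * u * y⁻¹) * z⁻¹ = z * y * ((y⁻¹ * z⁻¹ * y * z) * u) *
        (y⁻¹ * z⁻¹ * y * z)⁻¹ * (z * y)⁻¹ := by
      rw [h1]; group
    rw [h2]; group
  have e1 : ⁅⁅u, y⁆, z⁆ = u * (y * u * y⁻¹)⁻¹ * (z * (y * u * y⁻¹) * z⁻¹) * (z * u * z⁻¹)⁻¹ := by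
    simp only [commutatorElement_def]; group
  have e2 : ⁅⁅u, z⁆, y⁆ = u * (z * u * z⁻¹)⁻¹ * (y * (z * u * z⁻¹) * y⁻¹) * (y * u * y⁻¹)⁻¹ := by
    simp only [commutatorElement_def]; group
  rw [e1, e2, e]
  generalize y * u * y⁻¹ = b at *
  generalize z * b * z⁻¹ = d at *
  generalize z * u * z⁻¹ = c at *
  rw [mul_assoc u, mul_assoc u, mul_assoc u, mul_assoc u]
  congr 1
  rw [mul_assoc, mul_assoc, h d hd _ (inv_mem hc), h d hd _ (inv_mem hb), ← mul_assoc, ← mul_assoc,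
    h _ (inv_mem hb) _ (inv_mem hc)]

theorem Metab.jacobi (x y z : G) : ⁅⁅x, y⁆, z⁆ * ⁅⁅y, z⁆, x⁆ * ⁅⁅z, x⁆, y⁆ = 1 := by
  have hp : ⁅y, z⁆ ∈ gam G 2 := comm_mem_two _ _
  have hr : ⁅x, z⁆ ∈ gam G 2 := comm_mem_two _ _
  have hq : x * ⁅y, z⁆ * x⁻¹ ∈ gam G 2 := (gam_normal 2).conj_mem _ hp _
  have hs : y * ⁅x, z⁆ * y⁻¹ ∈ gam G 2 := (gam_normal 2).conj_mem _ hr _
  have ht : ⁅⁅x, y⁆, z⁆ ∈ gam G 2 := comm_mem_two _ _
  have e1 : (x * ⁅y, z⁆ * x⁻¹) * ⁅x, z⁆ = (y * ⁅x, z⁆ * y⁻¹) * ⁅y, z⁆ * ⁅⁅x, y⁆, z⁆ := by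
    rw [← comm_mul_left, ← comm_mul_left]
    have : x * y = ⁅x, y⁆ * (y * x) := by simp [commutatorElement_def]
    rw [this, comm_mul_left, h ⁅x, y⁆ (comm_mem_two _ _) _ (comm_mem_two _ _), mul_assoc _ ⁅x, y⁆,
      mul_inv_cancel, mul_one]
  have e2 : ⁅⁅y, z⁆, x⁆ = ⁅y, z⁆ * (x * ⁅y, z⁆ * x⁻¹)⁻¹ := by
    simp only [commutatorElement_def]; group
  have e3 : ⁅⁅z, x⁆, y⁆ = ⁅x, z⁆⁻¹ * (y * ⁅x, z⁆ * y⁻¹) := by
    simp only [commutatorElement_def]; group
  rw [e2, e3]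
  generalize x * ⁅y, z⁆ * x⁻¹ = q at *
  generalize y * ⁅x, z⁆ * y⁻¹ = s at *
  generalize ⁅y, z⁆ = p at *
  generalize ⁅x, z⁆ = r at *
  generalize ⁅⁅x, y⁆, z⁆ = t at *
  -- q * r = s * p * t
  have e4 : q = s * p * t * r⁻¹ := by rw [← e1]; group
  have hpt : p * t = t * p := h p hp t ht
  calc t * (p * q⁻¹) * (r⁻¹ * s) = t * (p * (r * t⁻¹ * p⁻¹ * s⁻¹)) * (r⁻¹ * s) := by
        rw [e4]; group
    _ = (t * p * r) * (t⁻¹ * p⁻¹) * (s⁻¹ * r⁻¹) * s := by group
    _ = (r * (t * p)) * (t⁻¹ * p⁻¹) * (r⁻¹ * s⁻¹) * s := by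
        rw [h (t * p) (mul_mem ht hp) r hr, h _ (inv_mem hs) _ (inv_mem hr)]
    _ = r * (t * (p * t⁻¹) * p⁻¹) * r⁻¹ := by group
    _ = 1 := by rw [h p hp _ (inv_mem ht)]; group

/-- the fold -/
def fold {ι : Type*} (x : ι → G) (u : G) (l : List ι) : G := l.foldl (fun u t => ⁅u, x t⁆) u

omit h in
theorem fold_mem {ι : Type*} (x : ι → G) (l : List ι) : ∀ u ∈ gam G 2, fold x u l ∈ gam G 2 := by
  induction l with
  | nil => intro u hu; exact hu
  | cons t l ih => intro u hu; exact ih _ (comm_mem_two _ _)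

theorem fold_perm {ι : Type*} (x : ι → G) {l l' : List ι} (hl : l.Perm l') :
    ∀ u ∈ gam G 2, fold x u l = fold x u l' := by
  induction hl with
  | nil => intro u _; rfl
  | cons t _ ih => intro u _; exact ih _ (comm_mem_two _ _)
  | swap s t l =>
    intro u hu
    show fold x ⁅⁅u, x t⁆, x s⁆ l = fold x ⁅⁅u, x s⁆, x t⁆ l
    rw [h.swap hu]
  | trans _ _ ih1 ih2 => intro u hu; rw [ih1 u hu, ih2 u hu]

theorem fold_mul {ι : Type*} (x : ι → G) (l : List ι) : ∀ u ∈ gam G 2, ∀ v ∈ gam G 2,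
    fold x (u * v) l = fold x u l * fold x v l := by
  induction l with
  | nil => intro u _ v _; rfl
  | cons t l ih =>
    intro u hu v hv
    show fold x ⁅u * v, x t⁆ l = _
    rw [h.mul hu hv, ih _ (comm_mem_two _ _) _ (comm_mem_two _ _)]; rfl

omit h in
theorem fold_one {ι : Type*} (x : ι → G) (l : List ι) : fold x 1 l = 1 := by
  induction l with
  | nil => rfl
  | cons t l ih =>
    show fold x ⁅1, x t⁆ l = 1
    rw [commutatorElement_one_left, ih]

theorem fold_inv {ι : Type*} (x : ι → G) (l : List ι) (u : G) (hu : u ∈ gam G 2) :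
    fold x u⁻¹ l = (fold x u l)⁻¹ := by
  have := fold_mul h x l u hu u⁻¹ (inv_mem hu)
  rw [mul_inv_cancel, fold_one] at this
  exact eq_inv_of_mul_eq_one_right this.symm

/-- the remaining letters -/
def rest {n : ℕ} (i j : Fin n) : List (Fin n) := (List.finRange n).filter fun t => t ≠ i ∧ t ≠ j

omit h in
theorem lc_cons {ι : Type*} (x : ι → G) (i j : ι) (l : List ι) :
    lc x (i :: j :: l) = fold x ⁅x i, x j⁆ l := rfl

theorem lc_eq_rest {n : ℕ} (x : Fin n → G) (i j : Fin n) (l : List (Fin n))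
    (hn : (i :: j :: l).Nodup) (hl : ∀ t, t ∈ i :: j :: l) :
    lc x (i :: j :: l) = lc x (i :: j :: rest i j) := by
  rw [lc_cons, lc_cons]
  refine fold_perm h x ?_ _ (comm_mem_two _ _)
  rw [List.nodup_cons, List.nodup_cons] at hn
  refine (List.perm_ext_iff_of_nodup hn.2.2 ((List.nodup_finRange n).filter _)).2 ?_
  intro t
  have h1 := hl t
  simp only [List.mem_cons, not_or] at hn h1
  simp only [rest, List.mem_filter, List.mem_finRange, true_and, decide_eq_true_eq, ne_eq]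
  constructor
  · intro ht
    refine ⟨?_, ?_⟩
    · rintro rfl; exact hn.1.2 ht
    · rintro rfl; exact hn.2.1 ht
  · rintro ⟨h2, h3⟩
    rcases h1 with h1 | h1 | h1
    · exact absurd h1 h2
    · exact absurd h1 h3
    · exact h1

omit h in
theorem rest_nodup {n : ℕ} {i j : Fin n} (hij : i ≠ j) : (i :: j :: rest i j).Nodup := by
  rw [List.nodup_cons, List.nodup_cons]
  refine ⟨?_, ?_, (List.nodup_finRange n).filter _⟩
  · simp [rest, hij]
  · simp [rest]

omit h in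
theorem mem_rest {n : ℕ} (i j t : Fin n) : t ∈ i :: j :: rest i j := by
  simp only [List.mem_cons, rest, List.mem_filter, List.mem_finRange, true_and,
    decide_eq_true_eq]
  tauto

theorem E_antisymm {n : ℕ} (x : Fin n → G) {i j : Fin n} (hij : i ≠ j) :
    lc x (i :: j :: rest i j) = (lc x (j :: i :: rest j i))⁻¹ := by
  have h1 := lc_eq_rest h x j i (rest i j) (by
    have := rest_nodup hij
    rw [List.nodup_cons, List.nodup_cons] at this ⊢
    simp only [List.mem_cons, not_or] at this ⊢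
    exact ⟨⟨hij.symm, this.2.1⟩, this.1.2, this.2.2⟩) (fun t => by
    have := mem_rest i j t
    simp only [List.mem_cons] at this ⊢
    tauto)
  rw [← h1, lc_cons, lc_cons, ← fold_inv h _ _ _ (comm_mem_two _ _), commutatorElement_inv]

theorem E_jacobi {n : ℕ} (x : Fin n → G) {i j k : Fin n} (hij : i ≠ j) (hjk : j ≠ k)
    (hik : i ≠ k) : lc x (i :: j :: rest i j) * lc x (j :: k :: rest j k) *
      lc x (k :: i :: rest k i) = 1 := by
  set r := (rest i j).filter fun t => t ≠ k with hr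
  have hrn : r.Nodup := (((List.nodup_finRange n).filter _).filter _)
  have hmem : ∀ t, t ∈ r ↔ t ≠ i ∧ t ≠ j ∧ t ≠ k := by
    intro t
    simp only [hr, rest, List.mem_filter, List.mem_finRange, true_and, decide_eq_true_eq]
    tauto
  have e : ∀ a b c : Fin n, a ≠ b → b ≠ c → a ≠ c → (∀ t, t ∈ r ↔ t ≠ a ∧ t ≠ b ∧ t ≠ c) →
      lc x (a :: b :: rest a b) = fold x ⁅⁅x a, x b⁆, x c⁆ r := by
    intro a b c hab hbc hac hr'
    rw [← lc_eq_rest h x a b (c :: r)]
    · rfl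
    · simp only [List.nodup_cons, List.mem_cons, not_or, hr']
      refine ⟨⟨hab, hac, by tauto⟩, ⟨hbc, by tauto⟩, by tauto, hrn⟩
    · intro t
      simp only [List.mem_cons, hr']
      tauto
  rw [e i j k hij hjk hik hmem, e j k i hjk hik.symm hij.symm (fun t => by rw [hmem]; tauto),
    e k i j hik.symm hij hjk.symm (fun t => by rw [hmem]; tauto),
    ← fold_mul h _ _ _ (comm_mem_two _ _) _ (comm_mem_two _ _),
    ← fold_mul h _ _ _ (mul_mem (comm_mem_two _ _) (comm_mem_two _ _)) _ (comm_mem_two _ _),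
    h.jacobi, fold_one]

/-- every full left-normed commutator of weight `n` is in the subgroup generated by the
`[x i, x o, …]` -/
theorem full_mem {n : ℕ} (hn : 2 ≤ n) (x : Fin n → G) (o : Fin n) (l : List (Fin n))
    (hl : l.length = n) (hf : ∀ i, i ∈ l) :
    lc x l ∈ closure {g | ∃ i, i ≠ o ∧ g = lc x (i :: o :: rest i o)} := by
  have hnd : l.Nodup := by
    have h1 : l.toFinset = Finset.univ := by ext i; simp [hf i]
    have h2 : l.toFinset.card = l.length := by rw [h1, Finset.card_univ, Fintype.card_fin, hl]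
    exact Multiset.toFinset_card_eq_card_iff_nodup.1 (show (l : Multiset (Fin n)).toFinset.card =
      Multiset.card (l : Multiset (Fin n)) from h2)
  match l, hl, hf, hnd with
  | [], hl, _, _ => simp at hl; omega
  | [_], hl, _, _ => simp at hl; omega
  | i :: j :: l, hl, hf, hnd =>
    rw [lc_eq_rest h x i j l hnd hf]
    have hij : i ≠ j := by
      rw [List.nodup_cons] at hnd
      rintro rfl; exact hnd.1 (by simp)
    by_cases hj : j = o
    · subst hj; exact subset_closure ⟨i, hij, rfl⟩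
    by_cases hi : i = o
    · subst hi
      rw [E_antisymm h x hij]
      exact inv_mem (subset_closure ⟨j, hj, rfl⟩)
    have h1 := E_jacobi h x hij hj hi
    rw [E_antisymm h x (i := o) (j := i) (Ne.symm hi)] at h1
    have h2 : lc x (i :: j :: rest i j) = lc x (i :: o :: rest i o) *
        (lc x (j :: o :: rest j o))⁻¹ := by
      rw [mul_inv_eq_one] at h1
      rw [← h1]; group
    rw [h2]
    exact mul_mem (subset_closure ⟨i, hi, rfl⟩) (inv_mem (subset_closure ⟨j, hj, rfl⟩))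

end

section
variable {G : Type*} [Group G]

theorem metab_quot : Metab (G ⧸ der2 G) := by
  intro u hu v hv
  have hs := QuotientGroup.mk'_surjective (der2 G)
  rw [← map_gam_surj (QuotientGroup.mk' (der2 G)) hs] at hu hv
  obtain ⟨a, ha, rfl⟩ := hu
  obtain ⟨b, hb, rfl⟩ := hv
  rw [← commutatorElement_eq_one_iff_mul_comm, ← map_commutatorElement, QuotientGroup.mk'_apply,
    QuotientGroup.eq_one_iff, der2_eq]
  exact commutator_mem_commutator ha hb

theorem full_mem' {n : ℕ} (hn : 2 ≤ n) (x : Fin n → G) (o : Fin n) (l : List (Fin n))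
    (hl : l.length = n) (hf : ∀ i, i ∈ l) :
    lc x l ∈ closure {g | ∃ i, i ≠ o ∧ g = lc x (i :: o :: rest i o)} ⊔ der2 G := by
  have h1 := full_mem (metab_quot (G := G)) hn (fun i => (x i : G ⧸ der2 G)) o l hl hf
  have h2 : closure {g : G ⧸ der2 G | ∃ i, i ≠ o ∧ g = lc (fun i => (x i : G ⧸ der2 G))
      (i :: o :: rest i o)} = (closure {g | ∃ i, i ≠ o ∧ g = lc x (i :: o :: rest i o)}).map
        (QuotientGroup.mk' (der2 G)) := by
    rw [MonoidHom.map_closure]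
    congr 1
    ext g
    constructor
    · rintro ⟨i, hi, rfl⟩
      exact ⟨_, ⟨i, hi, rfl⟩, map_lc (QuotientGroup.mk' (der2 G)) x _⟩
    · rintro ⟨_, ⟨i, hi, rfl⟩, rfl⟩
      exact ⟨i, hi, map_lc (QuotientGroup.mk' (der2 G)) x _⟩
  rw [h2] at h1
  obtain ⟨y, hy, hy2⟩ := h1
  have h3 : (QuotientGroup.mk' (der2 G)) (lc x l) = QuotientGroup.mk' (der2 G) y := by
    rw [hy2, map_lc]; rfl
  have h4 : y⁻¹ * lc x l ∈ der2 G := QuotientGroup.eq.1 h3.symm
  have : lc x l = y * (y⁻¹ * lc x l) := by group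
  rw [this]
  exact mul_mem (mem_sup_left hy) (mem_sup_right h4)

end

end Pool.Agent.V1148.VG
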