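import Pool.Agent.V1148.VG.A

set_option autoImplicit false

open scoped commutatorElement

namespace Pool.Agent.V1148.VG

/-- matrices -/
abbrev Mt (m : ℕ) := Matrix (Fin m) (Fin m) (ZMod 5)

/-- the matrices with zero entries below the `k`-th upper diagonal -/
def J (m k : ℕ) : AddSubgroup (Mt m) where
  carrier := {X | ∀ i j : Fin m, (j : ℕ) < i + k → X i j = 0}
  zero_mem' := fun _ _ _ => rfl
  add_mem' := by
    intro X Y hX hY i j h
    rw [Matrix.add_apply, hX i j h, hY i j h, add_zero]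
  neg_mem' := by
    intro X hX i j h
    rw [Matrix.neg_apply, hX i j h, neg_zero]

variable {m : ℕ}

theorem J_mul {i j : ℕ} {X Y : Mt m} (hX : X ∈ J m i) (hY : Y ∈ J m j) : X * Y ∈ J m (i + j) := by
  intro p q h
  rw [Matrix.mul_apply]
  refine Finset.sum_eq_zero fun r _ => ?_
  by_cases h1 : (r : ℕ) < p + i
  · rw [hX p r h1, zero_mul]
  · rw [hY r q (by omega), mul_zero]

theorem J_anti {i j : ℕ} (h : i ≤ j) {X : Mt m} (hX : X ∈ J m j) : X ∈ J m i :=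
  fun p q h1 => hX p q (by omega)

theorem J_top {k : ℕ} (hk : m ≤ k) {X : Mt m} (hX : X ∈ J m k) : X = 0 := by
  ext p q
  exact hX p q (by omega)

/-- filtration -/
def Fil (m k : ℕ) : Subgroup (Mt m)ˣ where
  carrier := {g | (g : Mt m) - 1 ∈ J m k ∧ ((g⁻¹ : (Mt m)ˣ) : Mt m) - 1 ∈ J m k}
  one_mem' := by simp [zero_mem]
  mul_mem' := by
    rintro a b ⟨ha, ha'⟩ ⟨hb, hb'⟩
    constructor
    · have : ((a * b : (Mt m)ˣ) : Mt m) - 1 = ((a : Mt m) - 1) * ((b : Mt m) - 1) +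
        ((a : Mt m) - 1) + ((b : Mt m) - 1) := by rw [Units.val_mul]; noncomm_ring
      rw [this]
      exact add_mem (add_mem (J_anti (by omega) (J_mul ha hb)) ha) hb
    · have : (((a * b)⁻¹ : (Mt m)ˣ) : Mt m) - 1 = (((b⁻¹ : (Mt m)ˣ) : Mt m) - 1) *
        (((a⁻¹ : (Mt m)ˣ) : Mt m) - 1) +
        (((b⁻¹ : (Mt m)ˣ) : Mt m) - 1) + (((a⁻¹ : (Mt m)ˣ) : Mt m) - 1) := by
        rw [mul_inv_rev, Units.val_mul]; noncomm_ring
      rw [this]
      exact add_mem (add_mem (J_anti (by omega) (J_mul hb' ha')) hb') ha'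
  inv_mem' := by
    rintro a ⟨ha, ha'⟩
    exact ⟨ha', by rwa [inv_inv]⟩

theorem comm_val (g h : (Mt m)ˣ) : ((⁅g, h⁆ : (Mt m)ˣ) : Mt m) - 1 =
    (((g : Mt m) - 1) * ((h : Mt m) - 1) - ((h : Mt m) - 1) * ((g : Mt m) - 1)) *
      (((g⁻¹ : (Mt m)ˣ) : Mt m) * ((h⁻¹ : (Mt m)ˣ) : Mt m)) := by
  have h1 : (((g : Mt m) - 1) * ((h : Mt m) - 1) - ((h : Mt m) - 1) * ((g : Mt m) - 1)) =
    (g : Mt m) * h - h * g := by noncomm_ring
  rw [h1, sub_mul, commutatorElement_def]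
  have h2 : (h : Mt m) * g * (((g⁻¹ : (Mt m)ˣ) : Mt m) * ((h⁻¹ : (Mt m)ˣ) : Mt m)) = 1 := by
    rw [← Units.val_mul, ← Units.val_mul, ← Units.val_mul]
    simp
  rw [h2, Units.val_mul, Units.val_mul, Units.val_mul]
  noncomm_ring

theorem inv_sub_mem {g : (Mt m)ˣ} (hg : g ∈ Fil m 1) {h : (Mt m)ˣ} (hh : h ∈ Fil m 1) :
    ((g⁻¹ : (Mt m)ˣ) : Mt m) * ((h⁻¹ : (Mt m)ˣ) : Mt m) - 1 ∈ J m 1 := by
  have := (Fil m 1).mul_mem ((Fil m 1).inv_mem hg) ((Fil m 1).inv_mem hh)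
  have h1 := this.1
  rwa [Units.val_mul] at h1

theorem comm_mem_J {i j : ℕ} {g h : (Mt m)ˣ} (hg : g ∈ Fil m 1) (hh : h ∈ Fil m 1)
    (hgi : (g : Mt m) - 1 ∈ J m i) (hhj : (h : Mt m) - 1 ∈ J m j) :
    ((⁅g, h⁆ : (Mt m)ˣ) : Mt m) - 1 ∈ J m (i + j) := by
  rw [comm_val]
  have h1 : ((g : Mt m) - 1) * ((h : Mt m) - 1) - ((h : Mt m) - 1) * ((g : Mt m) - 1) ∈
      J m (i + j) := sub_mem (J_mul hgi hhj) (by rw [add_comm]; exact J_mul hhj hgi)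
  have h2 := inv_sub_mem hg hh
  generalize ((g : Mt m) - 1) * ((h : Mt m) - 1) - ((h : Mt m) - 1) * ((g : Mt m) - 1) = A at h1
  generalize ((g⁻¹ : (Mt m)ˣ) : Mt m) * ((h⁻¹ : (Mt m)ˣ) : Mt m) = B at h2
  have : A * B = A * (B - 1) + A := by noncomm_ring
  rw [this]
  exact add_mem (J_anti (by omega) (J_mul h1 h2)) h1

theorem Fil_comm {i j : ℕ} {g h : (Mt m)ˣ} (hg : g ∈ Fil m 1) (hh : h ∈ Fil m 1)
    (hgi : g ∈ Fil m i) (hhj : h ∈ Fil m j) : ⁅g, h⁆ ∈ Fil m (i + j) := by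
  refine ⟨comm_mem_J hg hh hgi.1 hhj.1, ?_⟩
  rw [commutatorElement_inv, add_comm]
  exact comm_mem_J hh hg hhj.1 hgi.1

/-- the unitriangular group -/
abbrev UT (m : ℕ) := ↥(Fil m 1)

theorem gam_UT {k : ℕ} (hk : 1 ≤ k) : gam (UT m) k ≤ (Fil m k).subgroupOf (Fil m 1) := by
  induction k, hk using Nat.le_induction with
  | base => intro g _; exact g.2
  | succ k hk ih =>
    rw [gam_succ k hk, Subgroup.commutator_le]
    intro g hg h _
    rw [Subgroup.mem_subgroupOf]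
    exact Fil_comm g.2 h.2 (ih hg) h.2

theorem gam_UT_bot {k : ℕ} (hk : m ≤ k) (hk1 : 1 ≤ k) : gam (UT m) k = ⊥ := by
  rw [eq_bot_iff]
  intro g hg
  have h1 := gam_UT hk1 hg
  rw [Subgroup.mem_subgroupOf] at h1
  rw [Subgroup.mem_bot]
  have h2 := J_top hk h1.1
  apply Subtype.ext
  apply Units.ext
  rw [sub_eq_zero] at h2
  exact h2

theorem UT_pow (hm : m ≤ 10) [NeZero m] {g : UT m} (hg : g ∈ gam (UT m) 2) : g ^ 5 = 1 := by
  haveI : Fact (Nat.Prime 5) := ⟨by norm_num⟩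
  have h1 := (gam_UT (by norm_num) hg)
  rw [Subgroup.mem_subgroupOf] at h1
  apply Subtype.ext
  apply Units.ext
  have h2 : ((g : (Mt m)ˣ) : Mt m) = 1 + (((g : (Mt m)ˣ) : Mt m) - 1) := by abel
  have h3 : ((((g ^ 5 : UT m) : (Mt m)ˣ)) : Mt m) = (((g : (Mt m)ˣ) : Mt m)) ^ 5 := by
    push_cast; rfl
  rw [h3, h2, add_pow_char_of_commute 5 (Commute.one_left _)]
  have h4 : (((g : (Mt m)ˣ) : Mt m) - 1) ^ 5 ∈ J m 10 := by
    have e : ∀ X : Mt m, X ∈ J m 2 → X ^ 5 ∈ J m 10 := by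
      intro X hX
      have : X ^ 5 = X * X * X * X * X := by noncomm_ring
      rw [this]
      exact J_mul (J_mul (J_mul (J_mul hX hX) hX) hX) hX
    exact e _ h1.1
  rw [J_top hm h4]
  simp

/-- leading terms -/
def Lead (g : UT m) (k : ℕ) (X : Mt m) : Prop :=
  X ∈ J m k ∧ ((g : (Mt m)ˣ) : Mt m) - 1 - X ∈ J m (k + 1)

theorem Lead.comm {g h : UT m} {i j : ℕ} {X Y : Mt m} (hi : 1 ≤ i) (hj : 1 ≤ j)
    (hX : Lead g i X) (hY : Lead h j Y) : Lead ⁅g, h⁆ (i + j) (X * Y - Y * X) := by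
  obtain ⟨hX, hg⟩ := hX
  obtain ⟨hY, hh⟩ := hY
  have hc : X * Y - Y * X ∈ J m (i + j) :=
    sub_mem (J_mul hX hY) (by rw [add_comm]; exact J_mul hY hX)
  refine ⟨hc, ?_⟩
  have e : (((⁅g, h⁆ : UT m) : (Mt m)ˣ) : Mt m) = ((⁅(g : (Mt m)ˣ), (h : (Mt m)ˣ)⁆ : (Mt m)ˣ) : Mt m) :=
    rfl
  rw [e, comm_val]
  have h2 := inv_sub_mem g.2 h.2
  generalize hu : ((g : (Mt m)ˣ) : Mt m) - 1 = u at *
  generalize hv : ((h : (Mt m)ˣ) : Mt m) - 1 = v at *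
  generalize (((g : (Mt m)ˣ)⁻¹ : (Mt m)ˣ) : Mt m) * (((h : (Mt m)ˣ)⁻¹ : (Mt m)ˣ) : Mt m) = B at h2
  have hu1 : u ∈ J m i := by
    have : u = (u - X) + X := by abel
    rw [this]; exact add_mem (J_anti (by omega) hg) hX
  have hv1 : v ∈ J m j := by
    have : v = (v - Y) + Y := by abel
    rw [this]; exact add_mem (J_anti (by omega) hh) hY
  have h3 : (u * v - v * u) * B - (X * Y - Y * X) = (u * v - v * u) * (B - 1) +
      ((u - X) * v + X * (v - Y) - (v - Y) * u - Y * (u - X)) := by noncomm_ring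
  rw [h3]
  refine add_mem ?_ ?_
  · exact J_mul (sub_mem (J_mul hu1 hv1) (by rw [add_comm]; exact J_mul hv1 hu1)) h2
  · refine sub_mem (sub_mem (add_mem ?_ ?_) ?_) ?_
    · exact J_anti (by omega) (J_mul hg hv1)
    · exact J_anti (by omega) (J_mul hX hh)
    · exact J_anti (by omega) (J_mul hh hu1)
    · exact J_anti (by omega) (J_mul hY hg)

theorem Lead.top {g : UT m} {k : ℕ} {X : Mt m} (h : Lead g k X) (hk : m ≤ k + 1) :
    ((g : (Mt m)ˣ) : Mt m) = 1 + X := by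
  have := J_top hk h.2
  rw [sub_sub, sub_eq_zero] at this
  exact this

end Pool.Agent.V1148.VG
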