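import Pool.Agent.V1148.VG.C
import Pool.Agent.V1148.VG.D

set_option autoImplicit false

open scoped commutatorElement

namespace Pool.Agent.V1148.VG

open Subgroup

section
variable {G H : Type*} [Group G] [Group H]

/-- the verbal subgroup of the variety `𝔘` -/
def UU (G : Type*) [Group G] : Subgroup G :=
  der2 G ⊔ gam G 5 ⊔ closure {x | ∃ c ∈ gam G 2, x = c ^ 5}

/-- the verbal subgroup of the variety `[𝔘, 𝔈]` -/
def PP (G : Type*) [Group G] : Subgroup G := ⁅UU G, (⊤ : Subgroup G)⁆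

instance : (UU G).Normal := by
  have : (closure {x : G | ∃ c ∈ gam G 2, x = c ^ 5}).Normal := by
    constructor
    intro n hn g
    induction hn using Subgroup.closure_induction with
    | mem x hx =>
      obtain ⟨c, hc, rfl⟩ := hx
      refine subset_closure ⟨g * c * g⁻¹, (gam_normal 2).conj_mem _ hc _, ?_⟩
      rw [conj_pow]
    | one => simp
    | mul a b _ _ iha ihb =>
      have : g * (a * b) * g⁻¹ = (g * a * g⁻¹) * (g * b * g⁻¹) := by group
      rw [this]; exact mul_mem iha ihb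
    | inv a _ iha =>
      have : g * a⁻¹ * g⁻¹ = (g * a * g⁻¹)⁻¹ := by group
      rw [this]; exact inv_mem iha
  unfold UU
  infer_instance

instance : (PP G).Normal := by unfold PP; infer_instance

theorem der2_map (f : G →* H) {x : G} (hx : x ∈ der2 G) : f x ∈ der2 H := by
  have h1 : (der2 G).map f ≤ der2 H := by
    rw [der2_eq, der2_eq, map_commutator]
    exact commutator_mono (map_gam f 2) (map_gam f 2)
  exact h1 ⟨x, hx, rfl⟩

theorem UU_map (f : G →* H) : (UU G).map f ≤ UU H := by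
  unfold UU
  rw [Subgroup.map_sup, Subgroup.map_sup]
  refine sup_le_sup (sup_le_sup ?_ (map_gam f 5)) ?_
  · rintro _ ⟨x, hx, rfl⟩; exact der2_map f hx
  · rw [MonoidHom.map_closure, closure_le]
    rintro _ ⟨_, ⟨c, hc, rfl⟩, rfl⟩
    exact subset_closure ⟨f c, map_mem_gam f hc, map_pow _ _ _⟩

theorem PP_map (f : G →* H) : (PP G).map f ≤ PP H := by
  unfold PP
  rw [map_commutator]
  exact commutator_mono (UU_map f) le_top

theorem PP_mem_map (f : G →* H) {x : G} (hx : x ∈ PP G) : f x ∈ PP H := PP_map f ⟨x, hx, rfl⟩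

theorem UU_map_surj (f : G →* H) (hf : Function.Surjective f) : (UU G).map f = UU H := by
  refine le_antisymm (UU_map f) ?_
  unfold UU
  rw [Subgroup.map_sup, Subgroup.map_sup]
  refine sup_le_sup (sup_le_sup ?_ (map_gam_surj f hf 5).ge) ?_
  · rw [der2_eq, der2_eq, map_commutator, map_gam_surj f hf]
  · rw [MonoidHom.map_closure]
    refine Subgroup.closure_mono ?_
    rintro _ ⟨c, hc, rfl⟩
    rw [← map_gam_surj f hf] at hc
    obtain ⟨d, hd, rfl⟩ := hc
    exact ⟨d ^ 5, ⟨d, hd, rfl⟩, map_pow _ _ _⟩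

theorem PP_map_surj (f : G →* H) (hf : Function.Surjective f) : (PP G).map f = PP H := by
  unfold PP
  rw [map_commutator, UU_map_surj f hf, Subgroup.map_top_of_surjective f hf]

theorem PP_quot : PP (G ⧸ PP G) = ⊥ := by
  rw [← PP_map_surj (QuotientGroup.mk' (PP G)) (QuotientGroup.mk'_surjective _)]
  rw [Subgroup.map_eq_bot_iff, QuotientGroup.ker_mk']

theorem pow_formula (a b : G) (hz : ∀ g : G, ⁅b, a⁆ * g = g * ⁅b, a⁆) (n : ℕ) :
    (a * b) ^ n = a ^ n * b ^ n * ⁅b, a⁆ ^ (n.choose 2) := by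
  have h1 : b * a = a * b * ⁅b, a⁆ := by
    rw [mul_assoc, ← hz b, ← mul_assoc, ← hz a]
    simp [commutatorElement_def]
  have hz' : ∀ (k : ℕ) (g : G), ⁅b, a⁆ ^ k * g = g * ⁅b, a⁆ ^ k := fun k g =>
    (Commute.pow_left (show Commute ⁅b, a⁆ g from hz g) k).eq
  have h2 : ∀ k : ℕ, b ^ k * a = a * b ^ k * ⁅b, a⁆ ^ k := by
    intro k
    induction k with
    | zero => simp
    | succ k ih =>
      rw [pow_succ, mul_assoc, h1, mul_assoc a b, ← hz b, ← mul_assoc, ← mul_assoc, ih]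
      rw [mul_assoc (a * b ^ k), ← pow_succ, mul_assoc, hz' (k + 1) b]
      simp only [mul_assoc]
  induction n with
  | zero => simp
  | succ n ih =>
    have hc : (n + 1).choose 2 = n + n.choose 2 := by
      rw [Nat.choose_succ_succ' n 1, Nat.choose_one_right]
    rw [hc, pow_succ (a * b), ih, pow_succ a, pow_succ b, pow_add]
    calc a ^ n * b ^ n * ⁅b, a⁆ ^ n.choose 2 * (a * b)
        = a ^ n * b ^ n * (⁅b, a⁆ ^ n.choose 2 * (a * b)) := by group
      _ = a ^ n * (b ^ n * a) * b * ⁅b, a⁆ ^ n.choose 2 := by rw [hz']; group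
      _ = a ^ n * (a * b ^ n * ⁅b, a⁆ ^ n) * b * ⁅b, a⁆ ^ n.choose 2 := by rw [h2]
      _ = a ^ n * (a * b ^ n) * (⁅b, a⁆ ^ n * b) * ⁅b, a⁆ ^ n.choose 2 := by group
      _ = a ^ n * (a * b ^ n) * (b * ⁅b, a⁆ ^ n) * ⁅b, a⁆ ^ n.choose 2 := by rw [hz']
      _ = _ := by simp only [mul_assoc]

end

section
variable {G : Type*} [Group G]

theorem UU_central (hP : PP G = ⊥) {u : G} (hu : u ∈ UU G) (g : G) : u * g = g * u := by
  rw [← commutatorElement_eq_one_iff_mul_comm, ← Subgroup.mem_bot, ← hP]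
  exact commutator_mem_commutator hu (Subgroup.mem_top g)

theorem gam5_le : gam G 5 ≤ UU G := le_sup_of_le_left le_sup_right
theorem der2_le : der2 G ≤ UU G := le_sup_of_le_left le_sup_left

theorem gam5_central (hP : PP G = ⊥) {u : G} (hu : u ∈ gam G 5) (g : G) : u * g = g * u :=
  UU_central hP (gam5_le hu) g

theorem der2_central (hP : PP G = ⊥) {u : G} (hu : u ∈ der2 G) (g : G) : u * g = g * u :=
  UU_central hP (der2_le hu) g

theorem gam6_bot (hP : PP G = ⊥) : gam G 6 = ⊥ := by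
  rw [eq_bot_iff, ← hP, gam_succ 5 (by norm_num)]
  exact commutator_mono gam5_le le_rfl

theorem gam_bot (hP : PP G = ⊥) {n : ℕ} (hn : 6 ≤ n) : gam G n = ⊥ := by
  rw [eq_bot_iff, ← gam6_bot hP]
  exact gam_anti hn

theorem pow_central (hP : PP G = ⊥) {c : G} (hc : c ∈ gam G 2) (g : G) : c ^ 5 * g = g * c ^ 5 :=
  UU_central hP (mem_sup_right (subset_closure ⟨c, hc, rfl⟩)) g

theorem gam3_comm (hP : PP G = ⊥) {a b : G} (ha : a ∈ gam G 3) (hb : b ∈ gam G 3) :
    a * b = b * a := by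
  rw [← commutatorElement_eq_one_iff_mul_comm, ← Subgroup.mem_bot, ← gam6_bot hP]
  exact gam_mem ha hb

theorem pow_step (hP : PP G = ⊥) {c : G} (hc : c ∈ gam G 2) (x : G) :
    ⁅x, c⁆ ^ 5 * ⁅c, ⁅x, c⁆⁆ ^ 10 = 1 := by
  have hu : ⁅x, c⁆ ∈ gam G 3 := gam_mem (mem_gam_one x) hc
  have hz : ⁅c, ⁅x, c⁆⁆ ∈ gam G 5 := gam_mem hc hu
  have h1 := pow_formula ⁅x, c⁆ c (fun g => gam5_central hP hz g) 5
  have h2 : ⁅x, c⁆ * c = x * c * x⁻¹ := by simp [commutatorElement_def]
  rw [h2, conj_pow, ← pow_central hP hc x, mul_inv_cancel_right,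
    show Nat.choose 5 2 = 10 from rfl, mul_assoc, pow_central hP hc] at h1
  have h3 : ⁅x, c⁆ ^ 5 * ⁅c, ⁅x, c⁆⁆ ^ 10 * c ^ 5 = 1 * c ^ 5 := by
    rw [one_mul, mul_assoc]; exact h1.symm
  exact mul_right_cancel h3

theorem pow_closure {T : Set G} {k : ℕ} (hT : ∀ t ∈ T, t ^ k = 1)
    (hc : ∀ a ∈ closure T, ∀ b ∈ closure T, a * b = b * a) : ∀ x ∈ closure T, x ^ k = 1 := by
  intro x hx
  induction hx using Subgroup.closure_induction with
  | mem x hx => exact hT x hx
  | one => exact one_pow _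
  | mul a b ha hb iha ihb =>
    rw [(show Commute a b from hc a ha b hb).mul_pow, iha, ihb, one_mul]
  | inv a _ iha => rw [inv_pow, iha, inv_one]

theorem exp_gam5 (hP : PP G = ⊥) {u : G} (hu : u ∈ gam G 5) : u ^ 5 = 1 := by
  have h5 := gam_succ (G := G) 4 (by norm_num)
  have e : gam G 5 = closure {g | ∃ g₁ ∈ gam G 4, ∃ g₂ ∈ (⊤ : Subgroup G), ⁅g₁, g₂⁆ = g} := by
    rw [h5, Subgroup.commutator_def]
  rw [e] at hu
  refine pow_closure ?_ ?_ u hu
  · rintro _ ⟨c, hc, y, _, rfl⟩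
    have h1 : ⁅y, c⁆ ∈ gam G 5 := gam_mem (mem_gam_one y) hc
    have h2 := pow_step hP (gam_anti (by norm_num) hc : c ∈ gam G 2) y
    have h3 : ⁅c, ⁅y, c⁆⁆ = 1 := by
      rw [commutatorElement_eq_one_iff_mul_comm]; exact (gam5_central hP h1 c).symm
    rw [h3, one_pow, mul_one] at h2
    rw [← commutatorElement_inv, inv_pow, h2, inv_one]
  · intro a ha b _
    rw [← e] at ha
    exact gam5_central hP ha b

theorem exp_gam3 (hP : PP G = ⊥) {u : G} (hu : u ∈ gam G 3) : u ^ 5 = 1 := by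
  have h5 := gam_succ (G := G) 2 (by norm_num)
  have e : gam G 3 = closure {g | ∃ g₁ ∈ gam G 2, ∃ g₂ ∈ (⊤ : Subgroup G), ⁅g₁, g₂⁆ = g} := by
    rw [h5, Subgroup.commutator_def]
  rw [e] at hu
  refine pow_closure ?_ ?_ u hu
  · rintro _ ⟨c, hc, y, _, rfl⟩
    have h1 : ⁅y, c⁆ ∈ gam G 3 := gam_mem (mem_gam_one y) hc
    have h2 := pow_step hP hc y
    have h3 : ⁅c, ⁅y, c⁆⁆ ^ 5 = 1 := exp_gam5 hP (gam_mem hc h1)
    have h4 : ⁅c, ⁅y, c⁆⁆ ^ 10 = 1 := by
      rw [show 10 = 5 * 2 from rfl, pow_mul, h3, one_pow]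
    rw [h4, mul_one] at h2
    rw [← commutatorElement_inv, inv_pow, h2, inv_one]
  · intro a ha b hb
    rw [← e] at ha hb
    exact gam3_comm hP ha hb

/-- two generators -/
theorem two_gen {a b : G} (h : closure {a, b} = ⊤) : der2 G ≤ gam G 5 := by
  have hx : closure (Set.range ![a, b]) = ⊤ := by
    rw [← h]; congr 1
    ext g
    constructor
    · rintro ⟨i, rfl⟩
      revert i
      rw [Fin.forall_fin_two]
      exact ⟨Or.inl rfl, Or.inr rfl⟩
    · rintro (rfl | rfl)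
      · exact ⟨0, rfl⟩
      · exact ⟨1, rfl⟩
  have h2 : gam G 2 ≤ closure {⁅a, b⁆} ⊔ gam G 3 := by
    refine (span ![a, b] hx 2 (by norm_num)).trans (sup_le ?_ le_sup_right)
    rw [closure_le]
    rintro _ ⟨l, hl, rfl⟩
    obtain ⟨i, j, rfl⟩ : ∃ i j, l = [i, j] := by
      match l, hl with
      | [i, j], _ => exact ⟨i, j, rfl⟩
    refine mem_sup_left ?_
    have key : ∀ i j : Fin 2, ⁅![a, b] i, ![a, b] j⁆ ∈ Subgroup.closure {⁅a, b⁆} := by
      rw [Fin.forall_fin_two]
      constructor <;> rw [Fin.forall_fin_two] <;> constructor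
      · show ⁅a, a⁆ ∈ Subgroup.closure {⁅a, b⁆}
        rw [commutatorElement_self]; exact one_mem _
      · exact Subgroup.subset_closure (Set.mem_singleton _)
      · show ⁅b, a⁆ ∈ Subgroup.closure {⁅a, b⁆}
        rw [← commutatorElement_inv a b]
        exact (Subgroup.closure {⁅a, b⁆}).inv_mem (Subgroup.subset_closure (Set.mem_singleton _))
      · show ⁅b, b⁆ ∈ Subgroup.closure {⁅a, b⁆}
        rw [commutatorElement_self]; exact one_mem _
    exact key i j
  rw [der2_eq, Subgroup.commutator_le]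
  intro u hu v hv
  refine comm_closure_sup (A := {⁅a, b⁆}) (B := {⁅a, b⁆}) (M := gam G 3) (N := gam G 3)
    (S := gam G 5) ?_ ?_ ?_ u (h2 hu) v (h2 hv)
  · rintro c hc d hd
    rw [Set.mem_singleton_iff] at hc hd
    rw [hc, hd, commutatorElement_self]; exact one_mem _
  · intro c hc d hd
    refine gam_mem (j := 2) hc ?_
    refine (show closure {⁅a, b⁆} ⊔ gam G 3 ≤ gam G 2 from ?_) hd
    refine sup_le ?_ (gam_anti (by norm_num))
    rw [closure_le, Set.singleton_subset_iff]; exact comm_mem_two _ _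
  · intro c hc d hd
    refine gam_mem (i := 2) ?_ hd
    refine (show closure {⁅a, b⁆} ⊔ gam G 3 ≤ gam G 2 from ?_) hc
    refine sup_le ?_ (gam_anti (by norm_num))
    rw [closure_le, Set.singleton_subset_iff]; exact comm_mem_two _ _

/-- test groups -/
theorem test_bot {m : ℕ} [NeZero m] (hm : m ≤ 6) (a b : UT m) :
    PP (Subgroup.closure ({a, b} : Set (UT m))) = ⊥ := by
  set K := Subgroup.closure ({a, b} : Set (UT m)) with hK
  have ha : a ∈ K := subset_closure (by simp)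
  have hb : b ∈ K := subset_closure (by simp)
  have hgen : Subgroup.closure ({⟨a, ha⟩, ⟨b, hb⟩} : Set K) = ⊤ := by
    have h1 := Subgroup.closure_closure_coe_preimage (k := ({a, b} : Set (UT m)))
    rw [← h1]
    congr 1
    ext ⟨g, hg⟩
    constructor
    · rintro (h | h)
      · exact Or.inl (congrArg Subtype.val h)
      · exact Or.inr (congrArg Subtype.val h)
    · rintro (h | h)
      · exact Or.inl (Subtype.ext h)
      · exact Or.inr (Subtype.ext h)
  have h5 : UU K ≤ gam K 5 := by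
    refine sup_le (sup_le (two_gen hgen) le_rfl) ?_
    rw [closure_le]
    rintro _ ⟨c, hc, rfl⟩
    have h1 : K.subtype c ∈ gam (UT m) 2 := map_mem_gam _ hc
    have h2 := UT_pow (by omega) h1
    have h3 : c ^ 5 = 1 := by
      apply Subtype.ext
      rw [SubmonoidClass.coe_pow]; exact h2
    rw [h3]; exact one_mem _
  rw [eq_bot_iff]
  intro g hg
  have h6 : g ∈ gam K 6 := by
    rw [gam_succ 5 (by norm_num)]
    exact commutator_mono h5 le_rfl hg
  have h7 : K.subtype g ∈ gam (UT m) 6 := map_mem_gam _ h6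
  rw [gam_UT_bot hm (by norm_num), Subgroup.mem_bot] at h7
  rw [Subgroup.mem_bot]
  exact Subtype.ext h7

end

end Pool.Agent.V1148.VG
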