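import Pool.Agent.V1148.VG.E

set_option autoImplicit false

open scoped commutatorElement

namespace Pool.Agent.V1148.VG

open Subgroup

section
variable {m : ℕ}

theorem pow_mem_J {X : Mt m} (hX : X ∈ J m 1) (i : ℕ) : X ^ i ∈ J m i := by
  induction i with
  | zero =>
    intro p q h
    rw [pow_zero, Matrix.one_apply_ne]
    rintro rfl; omega
  | succ i ih => rw [pow_succ]; exact J_mul ih hX

/-- the unit `1 + X` -/
def mkUT (X : Mt m) (hX : X ∈ J m 1) : UT m :=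
  ⟨⟨1 + X, ∑ i ∈ Finset.range m, (-X) ^ i, by
      have h1 := mul_neg_geom_sum (-X) m
      rw [J_top le_rfl (pow_mem_J (neg_mem hX) m), sub_zero, sub_neg_eq_add] at h1
      exact h1, by
      have h1 := geom_sum_mul_neg (-X) m
      rw [J_top le_rfl (pow_mem_J (neg_mem hX) m), sub_zero, sub_neg_eq_add] at h1
      exact h1⟩, by
    constructor
    · show (1 + X) - 1 ∈ J m 1
      rw [add_sub_cancel_left]; exact hX
    · show (∑ i ∈ Finset.range m, (-X) ^ i) - 1 ∈ J m 1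
      rcases m with _ | k
      · intro p; exact p.elim0
      · rw [Finset.sum_range_succ', pow_zero, add_sub_cancel_right]
        refine sum_mem fun i _ => ?_
        exact J_anti (by omega) (pow_mem_J (neg_mem hX) (i + 1))⟩

theorem mkUT_lead (X : Mt m) (hX : X ∈ J m 1) : Lead (mkUT X hX) 1 X := by
  refine ⟨hX, ?_⟩
  have : (((mkUT X hX : UT m) : (Mt m)ˣ) : Mt m) - 1 - X = 0 := by
    show (1 + X) - 1 - X = 0
    abel
  rw [this]; exact zero_mem _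

theorem order_UT {k : ℕ} {g : UT (k + 2)} {Z : Mt (k + 2)} (hg : Lead g (k + 1) Z)
    (h0 : Z 0 (Fin.last _) ≠ 0) (c : ℤ) (hc : g ^ c = 1) : (5 : ℤ) ∣ c := by
  haveI : Fact (Nat.Prime 5) := ⟨by norm_num⟩
  have h1 := hg.top (by omega)
  have hZZ : Z * Z = 0 := J_top (by omega) (J_mul hg.1 hg.1)
  have h2 : ∀ n : ℕ, (((g ^ n : UT (k + 2)) : (Mt (k + 2))ˣ) : Mt (k + 2)) = 1 + n • Z := by
    intro n
    induction n with
    | zero => simp
    | succ n ih =>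
      have e : (((g ^ (n + 1) : UT (k + 2)) : (Mt (k + 2))ˣ) : Mt (k + 2)) =
          (((g ^ n : UT (k + 2)) : (Mt (k + 2))ˣ) : Mt (k + 2)) *
            ((g : (Mt (k + 2))ˣ) : Mt (k + 2)) := by rw [pow_succ]; rfl
      rw [e, ih, h1, add_mul, mul_add, mul_add]
      simp only [smul_mul_assoc, hZZ, smul_zero, add_zero, one_mul, mul_one, succ_nsmul]
      abel
  have h3 : g ^ c.natAbs = 1 := by
    rcases Int.natAbs_eq c with h | h
    · rw [h, zpow_natCast] at hc; exact hc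
    · rw [h, zpow_neg, zpow_natCast, inv_eq_one] at hc; exact hc
  have h4 := h2 c.natAbs
  rw [h3] at h4
  have h5 : (c.natAbs • Z) 0 (Fin.last _) = 0 := by
    have : c.natAbs • Z = 0 := by
      have h6 : (1 : Mt (k + 2)) = 1 + c.natAbs • Z := h4
      have h7 := congrArg (fun A => A - 1) h6
      simpa using h7.symm
    rw [this]; rfl
  rw [Matrix.smul_apply, nsmul_eq_mul, mul_eq_zero] at h5
  have h6 := h5.resolve_right h0
  rw [ZMod.natCast_eq_zero_iff] at h6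
  rw [← Int.natCast_dvd] at h6
  exact_mod_cast h6

/-- superdiagonal matrices -/
def sd (m : ℕ) (v : ℕ → ZMod 5) : Mt m := fun i j => if (j : ℕ) = i + 1 then v i else 0

theorem sd_mem (m : ℕ) (v : ℕ → ZMod 5) : sd m v ∈ J m 1 := by
  intro i j h
  rw [sd, if_neg (by omega)]

def xv : ℕ → ZMod 5 := fun i => if i = 0 then 0 else 1
def yv : ℕ → ZMod 5 := fun i => if i = 0 then 1 else 0
def yv' : ℕ → ZMod 5 := fun i => if i = 0 then 1 else if i = 4 then 1 else 0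

/-- `⁅…⁅u, a⁆, …, a⁆` -/
def itc {G : Type*} [Group G] (a : G) (k : ℕ) (u : G) : G := (fun u => ⁅u, a⁆)^[k] u

def brk (X Y : Mt m) : Mt m := X * Y - Y * X

theorem test4 : ∃ a b : UT 4, ∀ c : ℤ, (itc a 1 ⁅b, a⁆) ^ c = 1 → (5 : ℤ) ∣ c := by
  refine ⟨mkUT _ (sd_mem 4 xv), mkUT _ (sd_mem 4 yv), fun c hc => ?_⟩
  have h1 := ((mkUT_lead _ (sd_mem 4 yv)).comm le_rfl le_rfl (mkUT_lead _ (sd_mem 4 xv)))
  have h2 := h1.comm (by norm_num) le_rfl (mkUT_lead _ (sd_mem 4 xv))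
  exact order_UT h2 (by decide) c hc

theorem test5 : ∃ a b : UT 5, ∀ c : ℤ, (itc a 2 ⁅b, a⁆) ^ c = 1 → (5 : ℤ) ∣ c := by
  refine ⟨mkUT _ (sd_mem 5 xv), mkUT _ (sd_mem 5 yv), fun c hc => ?_⟩
  have h1 := ((mkUT_lead _ (sd_mem 5 yv)).comm le_rfl le_rfl (mkUT_lead _ (sd_mem 5 xv)))
  have h2 := h1.comm (by norm_num) le_rfl (mkUT_lead _ (sd_mem 5 xv))
  have h3 := h2.comm (by norm_num) le_rfl (mkUT_lead _ (sd_mem 5 xv))
  exact order_UT h3 (by decide) c hc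

theorem test6 : ∃ a b : UT 6, (∀ c : ℤ, (itc a 3 ⁅b, a⁆) ^ c = 1 → (5 : ℤ) ∣ c) ∧
    (∀ c : ℤ, ⁅⁅⁅b, a⁆, a⁆, ⁅b, a⁆⁆ ^ c = 1 → (5 : ℤ) ∣ c) ∧
    (∀ c : ℤ, ⁅⁅⁅a, b⁆, a⁆, ⁅a, b⁆⁆ ^ c = 1 → (5 : ℤ) ∣ c) := by
  have hX := mkUT_lead _ (sd_mem 6 xv)
  have hY := mkUT_lead _ (sd_mem 6 yv')
  have h1 := hY.comm le_rfl le_rfl hX
  have h2 := h1.comm (by norm_num) le_rfl hX
  have h3 := h2.comm (by norm_num) le_rfl hX
  have h4 := h3.comm (by norm_num) le_rfl hX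
  have h5 := h2.comm (by norm_num) (by norm_num) h1
  have g1 := hX.comm le_rfl le_rfl hY
  have g2 := g1.comm (by norm_num) le_rfl hX
  have g5 := g2.comm (by norm_num) (by norm_num) g1
  refine ⟨mkUT _ (sd_mem 6 xv), mkUT _ (sd_mem 6 yv'), fun c hc => ?_, fun c hc => ?_,
    fun c hc => ?_⟩
  · exact order_UT h4 (by decide) c hc
  · exact order_UT h5 (by decide) c hc
  · exact order_UT g5 (by decide) c hc

end

end Pool.Agent.V1148.VG
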