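import Pool.Agent.V1148.VG.F

set_option autoImplicit false
set_option linter.deprecated false

open scoped commutatorElement

namespace Pool.Agent.V1148.VG

open Subgroup

/-- duality -/
theorem dual {ι G Γ : Type*} [Fintype ι] [DecidableEq ι] [Group G] [Group Γ] (e : ι → G)
    (hc : ∀ i j, e i * e j = e j * e i) (h5 : ∀ i, e i ^ 5 = 1) (ψ : ι → G →* Γ)
    (h0 : ∀ i j, j ≠ i → ψ i (e j) = 1) (h1 : ∀ i, ∀ c : ℤ, (ψ i (e i)) ^ c = 1 → (5 : ℤ) ∣ c)
    {w : G} (hw : w ∈ closure (Set.range e)) (hψ : ∀ i, ψ i w = 1) : w = 1 := by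
  letI : CommGroup (Subgroup.closure (Set.range e)) :=
    Subgroup.closureCommGroupOfComm (by rintro _ ⟨i, rfl⟩ _ ⟨j, rfl⟩; exact hc i j)
  let K := Subgroup.closure (Set.range e)
  let e' : ι → K := fun i => ⟨e i, subset_closure ⟨i, rfl⟩⟩
  have key : ∃ a : ι → ℤ, ((∏ i, e' i ^ a i : K) : G) = w := by
    clear hψ
    induction hw using Subgroup.closure_induction with
    | mem x hx =>
      obtain ⟨j, rfl⟩ := hx
      refine ⟨Pi.single j 1, ?_⟩
      have : (∏ i, e' i ^ (Pi.single j (1 : ℤ) : ι → ℤ) i) = e' j := by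
        rw [Finset.prod_eq_single j]
        · simp
        · intro i _ hi
          rw [Pi.single_eq_of_ne hi, zpow_zero]
        · intro h; exact absurd (Finset.mem_univ j) h
      rw [this]
    | one => exact ⟨0, by simp⟩
    | mul a b _ _ iha ihb =>
      obtain ⟨u, rfl⟩ := iha
      obtain ⟨v, rfl⟩ := ihb
      refine ⟨u + v, ?_⟩
      rw [← Subgroup.coe_mul, ← Finset.prod_mul_distrib]
      congr 1
      exact Finset.prod_congr rfl fun i _ => zpow_add _ _ _
    | inv a _ iha =>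
      obtain ⟨u, rfl⟩ := iha
      refine ⟨-u, ?_⟩
      rw [← Subgroup.coe_inv, ← Finset.prod_inv_distrib]
      congr 1
      exact Finset.prod_congr rfl fun i _ => zpow_neg _ _
  obtain ⟨a, rfl⟩ := key
  have h2 : ∀ j, (5 : ℤ) ∣ a j := by
    intro j
    refine h1 j (a j) ?_
    have h3 := hψ j
    rw [← Finset.mul_prod_erase _ _ (Finset.mem_univ j), Subgroup.coe_mul, map_mul] at h3
    have h4 : (∏ i ∈ Finset.univ.erase j, e' i ^ a i) ∈ ((ψ j).comp K.subtype).ker := by
      refine Subgroup.prod_mem _ fun i hi => ?_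
      refine zpow_mem ?_ _
      rw [MonoidHom.mem_ker]
      exact h0 j i (Finset.ne_of_mem_erase hi)
    rw [MonoidHom.mem_ker] at h4
    have h5 : ψ j ((∏ i ∈ Finset.univ.erase j, e' i ^ a i : K) : G) = 1 := h4
    rw [h5, mul_one, Subgroup.coe_zpow, map_zpow] at h3
    exact h3
  have h6 : (∏ i, e' i ^ a i) = 1 := by
    refine Finset.prod_eq_one fun i _ => ?_
    obtain ⟨k, hk⟩ := h2 i
    rw [hk, zpow_mul]
    have : e' i ^ (5 : ℤ) = 1 := Subtype.ext (by
      rw [Subgroup.coe_zpow]; show (e i) ^ (5 : ℤ) = 1; exact_mod_cast h5 i)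
    rw [this, one_zpow]
  rw [h6]; rfl

/-- free groups -/
abbrev FF (n : ℕ) := FreeGroup (Fin n)

/-- the relatively free groups of the variety `[𝔘, 𝔈]` -/
abbrev QQ (n : ℕ) := FF n ⧸ PP (FF n)

/-- generators -/
def xx (n : ℕ) (i : Fin n) : QQ n := (FreeGroup.of i : FF n)

/-- erasing a letter -/
def er {n : ℕ} (i : Fin n) : FF n →* FF n :=
  FreeGroup.lift fun j => if j = i then 1 else FreeGroup.of j

def pi {n : ℕ} (i : Fin n) : QQ n →* QQ n :=
  QuotientGroup.map _ _ (er i) fun _ hg => PP_mem_map (er i) hg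

theorem xx_gen (n : ℕ) : closure (Set.range (xx n)) = ⊤ := by
  have h1 := FreeGroup.closure_range_of (Fin n)
  have h2 := congrArg (Subgroup.map (QuotientGroup.mk' (PP (FF n)))) h1
  rw [MonoidHom.map_closure, Subgroup.map_top_of_surjective _ (QuotientGroup.mk'_surjective _),
    ← Set.range_comp] at h2
  exact h2

theorem erase (n : ℕ) : Erase (xx n) (pi (n := n)) := by
  constructor
  · intro i
    show ((er i (FreeGroup.of i) : FF n) : QQ n) = 1
    rw [er, FreeGroup.lift_apply_of, if_pos rfl]; rfl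
  · intro i j hij
    show ((er i (FreeGroup.of j) : FF n) : QQ n) = _
    rw [er, FreeGroup.lift_apply_of, if_neg hij]; rfl

/-- two-variable laws -/
def TT {n : ℕ} (w : FF n) : Prop := ∀ φ : FF n →* FF 2, φ w ∈ PP (FF 2)

theorem exEv {m : ℕ} [NeZero m] (hm : m ≤ 6) (a b : UT m) (n : ℕ) (g : Fin n → UT m)
    (hg : ∀ i, g i ∈ Subgroup.closure ({a, b} : Set (UT m))) :
    ∃ ψ : QQ n →* UT m, (∀ i, ψ (xx n i) = g i) ∧ ∀ w : FF n, TT w → ψ (w : QQ n) = 1 := by
  set K := Subgroup.closure ({a, b} : Set (UT m)) with hK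
  have hPK : PP K = ⊥ := test_bot hm a b
  have ha : a ∈ K := subset_closure (by simp)
  have hb : b ∈ K := subset_closure (by simp)
  let ρ : FF 2 →* K := FreeGroup.lift ![⟨a, ha⟩, ⟨b, hb⟩]
  have hρ : (K.subtype.comp ρ).range = K := by
    have e : K.subtype.comp ρ = FreeGroup.lift ![a, b] := by
      ext i
      revert i
      rw [Fin.forall_fin_two]
      constructor <;> simp [ρ]
    rw [e, FreeGroup.range_lift_eq_closure, hK]
    congr 1
    ext g
    constructor
    · rintro ⟨i, rfl⟩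
      revert i
      rw [Fin.forall_fin_two]
      exact ⟨Or.inl rfl, Or.inr rfl⟩
    · rintro (rfl | rfl)
      · exact ⟨0, rfl⟩
      · exact ⟨1, rfl⟩
  have hy : ∀ i, ∃ y : FF 2, K.subtype (ρ y) = g i := by
    intro i
    have := hg i
    rw [← hρ] at this
    obtain ⟨y, hy⟩ := this
    exact ⟨y, hy⟩
  choose y hy using hy
  let g' : FF n →* K := FreeGroup.lift fun i => ⟨g i, hg i⟩
  have hg' : ∀ p ∈ PP (FF n), (K.subtype.comp g') p = 1 := by
    intro p hp
    have h1 : g' p ∈ PP K := PP_mem_map g' hp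
    rw [hPK, Subgroup.mem_bot] at h1
    rw [MonoidHom.comp_apply, h1, map_one]
  refine ⟨QuotientGroup.lift _ (K.subtype.comp g') hg', ?_, ?_⟩
  · intro i
    show K.subtype (g' (FreeGroup.of i)) = g i
    simp [g']
  · intro w hw
    show K.subtype (g' w) = 1
    have h1 : K.subtype.comp g' = (K.subtype.comp ρ).comp (FreeGroup.lift y) := by
      ext i
      simp only [MonoidHom.comp_apply, g', FreeGroup.lift_apply_of, hy]
      rfl
    have h2 := hw (FreeGroup.lift y)
    have h3 : ρ (FreeGroup.lift y w) ∈ PP K := PP_mem_map ρ h2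
    rw [hPK, Subgroup.mem_bot] at h3
    have h4 := DFunLike.congr_fun h1 w
    rw [MonoidHom.comp_apply, MonoidHom.comp_apply, MonoidHom.comp_apply, h3, map_one] at h4
    exact h4

end Pool.Agent.V1148.VG
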