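import Pool.Agent.V1148.VG.G

set_option autoImplicit false
set_option linter.deprecated false

open scoped commutatorElement

namespace Pool.Agent.V1148.VG

open Subgroup

theorem fold_const {G : Type*} [Group G] {ι : Type*} (g : ι → G) (a : G) (l : List ι)
    (h : ∀ t ∈ l, g t = a) : ∀ u, fold g u l = itc a l.length u := by
  induction l with
  | nil => intro u; rfl
  | cons t l ih =>
    intro u
    show fold g ⁅u, g t⁆ l = _
    rw [ih (fun s hs => h s (by simp [hs])), h t (by simp)]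
    rfl

theorem rest_length {n : ℕ} {i o : Fin n} (h : i ≠ o) : (rest i o).length = n - 2 := by
  have h1 := rest_nodup h
  have h2 : (i :: o :: rest i o).toFinset = Finset.univ := by
    ext t; simp only [List.mem_toFinset, Finset.mem_univ, iff_true]; exact mem_rest i o t
  have h3 := List.toFinset_card_of_nodup h1
  rw [h2, Finset.card_univ, Fintype.card_fin] at h3
  simp only [List.length_cons] at h3
  omega

theorem oneb_same {G : Type*} [Group G] {n : ℕ} (g : Fin n → G) {a b : G} {i o : Fin n}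
    (hio : i ≠ o) (hi : g i = b) (hj : ∀ j, j ≠ i → g j = a) :
    lc g (i :: o :: rest i o) = itc a (n - 2) ⁅b, a⁆ := by
  rw [lc_cons, hi, hj o hio.symm, fold_const g a _ _, rest_length hio]
  intro t ht
  refine hj t ?_
  simp only [rest, List.mem_filter, decide_eq_true_eq] at ht
  exact ht.2.1

theorem oneb_other {G : Type*} [Group G] {n : ℕ} (g : Fin n → G) {a : G} {i j o : Fin n}
    (hio : i ≠ o) (hji : j ≠ i) (hj : ∀ j, j ≠ i → g j = a) :
    lc g (j :: o :: rest j o) = 1 := by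
  rw [lc_cons, hj j hji, hj o hio.symm, commutatorElement_self, fold_one]

/-- basic elements -/
def eE (n : ℕ) (o : Fin n) (i : {i : Fin n // i ≠ o}) : QQ n := lc (xx n) (i :: o :: rest i.1 o)

/-- evaluations with one letter `b` -/
def OneB {n : ℕ} {G : Type*} [Group G] (ψ : QQ n →* G) (a b : G) : Prop :=
  ∃ i, ψ (xx n i) = b ∧ ∀ j, j ≠ i → ψ (xx n j) = a

theorem pi_mk {n : ℕ} (w : FF n) (hπ : ∀ i, er i w ∈ PP (FF n)) (i : Fin n) :
    pi i (w : QQ n) = 1 := (QuotientGroup.eq_one_iff _).2 (hπ i)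

theorem eE_gam {n : ℕ} (o : Fin n) (i : {i : Fin n // i ≠ o}) : eE n o i ∈ gam (QQ n) n := by
  have h1 := lc_mem_gam (xx n) (i :: o :: rest i.1 o)
  have h2 : (i.1 :: o :: rest i.1 o).length = n := by
    have := rest_length i.2
    simp only [List.length_cons, this]
    have hn : 2 ≤ n := by
      have hi := i.1.2; have ho := o.2
      have : (i.1 : ℕ) ≠ o := fun h => i.2 (Fin.ext h)
      omega
    omega
  rw [h2] at h1
  exact h1

theorem Mstep {n : ℕ} (h3 : 3 ≤ n) (hn : n ≤ 5) (o : Fin n) {a b : UT (n + 1)}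
    (hord : ∀ c : ℤ, (itc a (n - 2) ⁅b, a⁆) ^ c = 1 → (5 : ℤ) ∣ c) (w : FF n) (hT : TT w)
    (hπ : ∀ i, er i w ∈ PP (FF n))
    (hU : ∀ u ∈ der2 (QQ n) ⊔ gam (QQ n) (n + 1), (∀ i, pi i u = 1) →
      ∀ ψ : QQ n →* UT (n + 1), OneB ψ a b → ψ u = 1) :
    (w : QQ n) ∈ der2 (QQ n) ⊔ gam (QQ n) (n + 1) := by
  classical
  have hP : PP (QQ n) = ⊥ := PP_quot
  have hx := xx_gen n
  have he := erase n
  have h1 := mem_gam_of_erase hx he (pi_mk w hπ)
  have h2 := full hx he n (by omega) h1 (pi_mk w hπ)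
  have h4 : closure (FLC (xx n) n) ⊔ gam (QQ n) (n + 1) ≤
      closure (Set.range (eE n o)) ⊔ (der2 (QQ n) ⊔ gam (QQ n) (n + 1)) := by
    refine sup_le ?_ (le_sup_right.trans le_sup_right)
    rw [closure_le]
    rintro _ ⟨l, hl, hf, rfl⟩
    have h5 := full_mem' (by omega) (xx n) o l hl hf
    refine (sup_le_sup ?_ le_sup_left : closure {g | ∃ i, i ≠ o ∧ g = lc (xx n)
      (i :: o :: rest i o)} ⊔ der2 (QQ n) ≤ _) h5
    refine Subgroup.closure_mono ?_
    rintro _ ⟨i, hi, rfl⟩
    exact ⟨⟨i, hi⟩, rfl⟩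
  obtain ⟨e, hee, u, hu, heu⟩ := Subgroup.mem_sup_of_normal_right.1 (h4 h2)
  have hpe : ∀ i, pi i e = 1 := by
    intro i
    clear heu
    induction hee using Subgroup.closure_induction with
    | mem x hx =>
      obtain ⟨j, rfl⟩ := hx
      exact (he.lc i _).1 (mem_rest _ _ i)
    | one => exact map_one _
    | mul a b _ _ iha ihb => rw [map_mul, iha, ihb, one_mul]
    | inv a _ iha => rw [map_inv, iha, inv_one]
  have hpu : ∀ i, pi i u = 1 := by
    intro i
    have h6 := pi_mk w hπ i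
    rw [← heu, map_mul, hpe i, one_mul] at h6
    exact h6
  have hg3 : ∀ i, eE n o i ∈ gam (QQ n) 3 := fun i => gam_anti h3 (eE_gam o i)
  have hev : ∀ i : {i : Fin n // i ≠ o}, ∃ ψ : QQ n →* UT (n + 1),
      (∀ j, ψ (xx n j) = if j = i.1 then b else a) ∧ ψ (w : QQ n) = 1 := by
    intro i
    obtain ⟨ψ, h7, h8⟩ := exEv (by omega) a b n (fun j => if j = i.1 then b else a) (by
      intro j
      split_ifs
      · exact subset_closure (by simp)
      · exact subset_closure (by simp))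
    exact ⟨ψ, h7, h8 w hT⟩
  choose ψ hψ1 hψ2 using hev
  have hψb : ∀ i : {i : Fin n // i ≠ o}, ψ i (xx n i.1) = b := fun i => by rw [hψ1, if_pos rfl]
  have hψa : ∀ (i : {i : Fin n // i ≠ o}) (j : Fin n), j ≠ i.1 → ψ i (xx n j) = a :=
    fun i j hj => by rw [hψ1, if_neg hj]
  have he1 : e = 1 := by
    refine dual (eE n o) (fun i j => gam3_comm hP (hg3 i) (hg3 j)) (fun i => exp_gam3 hP (hg3 i))
      ψ ?_ ?_ hee ?_
    · intro i j hij
      rw [eE, map_lc]
      exact oneb_other _ i.2 (fun h => hij (Subtype.ext h)) (hψa i)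
    · intro i c hc
      rw [eE, map_lc, oneb_same _ i.2 (hψb i) (hψa i)] at hc
      exact hord c hc
    · intro i
      have h9 := hψ2 i
      rw [← heu, map_mul, hU u hu hpu (ψ i) ⟨i.1, hψb i, hψa i⟩, mul_one] at h9
      exact h9
  rw [he1, one_mul] at heu
  rw [← heu]; exact hu

end Pool.Agent.V1148.VG
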