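import Pool.Agent.V1148.VG.H

set_option autoImplicit false
set_option linter.deprecated false

open scoped commutatorElement

namespace Pool.Agent.V1148.VG

open Subgroup

section
variable {G : Type*} [Group G]

/-- commutators of commutators -/
def AA {ι : Type*} (x : ι → G) (i j k l : ι) : G := ⁅⁅x i, x j⁆, ⁅x k, x l⁆⁆

def PH {ι : Type*} (x : ι → G) (i j k l m : ι) : G := ⁅⁅⁅x i, x j⁆, x m⁆, ⁅x k, x l⁆⁆

def TA {ι : Type*} (x : ι → G) : Set G := {g | ∃ i j k l, g = AA x i j k l}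

def TP {ι : Type*} (x : ι → G) : Set G := {g | ∃ i j k l m, g = PH x i j k l m}

theorem kap_der2 {u v : G} (hu : u ∈ gam G 2) (hv : v ∈ gam G 2) : ⁅u, v⁆ ∈ der2 G := by
  rw [der2_eq]; exact commutator_mem_commutator hu hv

theorem AA_mem {ι : Type*} (x : ι → G) (i j k l : ι) : AA x i j k l ∈ der2 G :=
  kap_der2 (comm_mem_two _ _) (comm_mem_two _ _)

theorem PH_mem {ι : Type*} (x : ι → G) (i j k l m : ι) : PH x i j k l m ∈ der2 G :=
  kap_der2 (comm_mem_two _ _) (comm_mem_two _ _)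

theorem comm3_mem (a b c : G) : ⁅⁅a, b⁆, c⁆ ∈ gam G 3 := gam_mem (comm_mem_two _ _) (mem_gam_one _)

theorem PH_gam {ι : Type*} (x : ι → G) (i j k l m : ι) : PH x i j k l m ∈ gam G 5 :=
  gam_mem (comm3_mem _ _ _) (comm_mem_two _ _)

theorem der2_gam : der2 G ≤ gam G 4 := by
  rw [der2_eq]; exact gam_comm 2 2

theorem der2_span (hP : PP G = ⊥) {ι : Type*} (x : ι → G) (hx : closure (Set.range x) = ⊤) :
    der2 G ≤ closure (TA x ∪ TP x) := by
  have hS : (closure (TA x ∪ TP x)).Normal := by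
    have := sup_normal (T := TA x ∪ TP x) (N := (⊥ : Subgroup G)) (by
      rintro t ht g
      rw [Subgroup.mem_bot, commutatorElement_eq_one_iff_mul_comm]
      refine (der2_central hP ?_ g).symm
      rcases ht with ⟨i, j, k, l, rfl⟩ | ⟨i, j, k, l, m, rfl⟩
      · exact AA_mem x i j k l
      · exact PH_mem x i j k l m)
    rwa [sup_bot_eq] at this
  have hle2 : closure (LC x 2) ⊔ gam G 3 ≤ gam G 2 := by
    refine sup_le ?_ (gam_anti (by norm_num))
    rw [closure_le]; exact LC_mem x 2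
  have hle3 : closure (LC x 3) ⊔ gam G 4 ≤ gam G 3 := by
    refine sup_le ?_ (gam_anti (by norm_num))
    rw [closure_le]; exact LC_mem x 3
  have h6 : ∀ g ∈ gam G 6, g ∈ closure (TA x ∪ TP x) := by
    intro g hg
    rw [gam6_bot hP, Subgroup.mem_bot] at hg
    rw [hg]; exact one_mem _
  have h3 : ∀ a ∈ gam G 3, ∀ b ∈ closure (LC x 2) ⊔ gam G 3,
      ⁅a, b⁆ ∈ closure (TA x ∪ TP x) := by
    intro a ha b hb
    refine comm_closure_sup (A := LC x 3) (M := gam G 4) (B := LC x 2) (N := gam G 3) ?_ ?_ ?_ a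
      (span x hx 3 (by norm_num) ha) b hb
    · rintro _ ⟨l, hl, rfl⟩ _ ⟨l', hl', rfl⟩
      match l, hl, l', hl' with
      | [i, j, m], _, [k, l], _ => exact subset_closure (Or.inr ⟨i, j, k, l, m, rfl⟩)
    · intro c hc d hd
      exact h6 _ (gam_mem (i := 4) (j := 2) hc (hle2 hd))
    · intro c hc d hd
      exact h6 _ (gam_mem (i := 3) (j := 3) (hle3 hc) hd)
  rw [der2_eq, Subgroup.commutator_le]
  intro u hu v hv
  refine comm_closure_sup (A := LC x 2) (B := LC x 2) (M := gam G 3) (N := gam G 3) ?_ ?_ ?_ u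
    (span x hx 2 (by norm_num) hu) v (span x hx 2 (by norm_num) hv)
  · rintro _ ⟨l, hl, rfl⟩ _ ⟨l', hl', rfl⟩
    match l, hl, l', hl' with
    | [i, j], _, [k, l], _ => exact subset_closure (Or.inl ⟨i, j, k, l, rfl⟩)
  · exact h3
  · intro c hc d hd
    rw [← commutatorElement_inv]; exact inv_mem (h3 d hd c hc)

theorem er_AA1 {n : ℕ} {x : Fin n → G} {π : Fin n → G →* G} (he : Erase x π) {t i j k l : Fin n}
    (h : t = i ∨ t = j ∨ t = k ∨ t = l) : π t (AA x i j k l) = 1 := by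
  simp only [AA, map_commutatorElement]
  rcases h with rfl | rfl | rfl | rfl <;> simp [he.same]

theorem er_AA2 {n : ℕ} {x : Fin n → G} {π : Fin n → G →* G} (he : Erase x π) {t i j k l : Fin n}
    (h : t ∉ [i, j, k, l]) : π t (AA x i j k l) = AA x i j k l := by
  simp only [List.mem_cons, List.not_mem_nil, or_false, not_or] at h
  simp only [AA, map_commutatorElement]
  rw [he.other t i (Ne.symm h.1), he.other t j (Ne.symm h.2.1), he.other t k (Ne.symm h.2.2.1),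
    he.other t l (Ne.symm h.2.2.2)]

theorem er_PH1 {n : ℕ} {x : Fin n → G} {π : Fin n → G →* G} (he : Erase x π)
    {t i j k l m : Fin n}
    (h : t = i ∨ t = j ∨ t = k ∨ t = l ∨ t = m) : π t (PH x i j k l m) = 1 := by
  simp only [PH, map_commutatorElement]
  rcases h with rfl | rfl | rfl | rfl | rfl <;> simp [he.same]

theorem er_PH2 {n : ℕ} {x : Fin n → G} {π : Fin n → G →* G} (he : Erase x π)
    {t i j k l m : Fin n}
    (h : t ∉ [i, j, k, l, m]) : π t (PH x i j k l m) = PH x i j k l m := by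
  simp only [List.mem_cons, List.not_mem_nil, or_false, not_or] at h
  simp only [PH, map_commutatorElement]
  rw [he.other t i (Ne.symm h.1), he.other t j (Ne.symm h.2.1), he.other t k (Ne.symm h.2.2.1),
    he.other t l (Ne.symm h.2.2.2.1), he.other t m (Ne.symm h.2.2.2.2)]

theorem nodup_of_full {n : ℕ} (l : List (Fin n)) (hl : l.length = n) (hf : ∀ i, i ∈ l) :
    l.Nodup := by
  have h1 : l.toFinset = Finset.univ := by ext i; simp [hf i]
  have h2 : l.toFinset.card = l.length := by rw [h1, Finset.card_univ, Fintype.card_fin, hl]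
  exact Multiset.toFinset_card_eq_card_iff_nodup.1 (show (l : Multiset (Fin n)).toFinset.card =
    Multiset.card (l : Multiset (Fin n)) from h2)

theorem exists_missing {n : ℕ} (l : List (Fin n)) (hl : l.length < n) : ∃ t, t ∉ l := by
  by_contra h
  push Not at h
  have h1 : l.toFinset = Finset.univ := by ext i; simp [h i]
  have h2 := List.toFinset_card_le l
  rw [h1, Finset.card_univ, Fintype.card_fin] at h2
  omega

theorem er_T {n : ℕ} {x : Fin n → G} {π : Fin n → G →* G} (he : Erase x π) :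
    ∀ i, ∀ t ∈ TA x ∪ TP x, π i t = 1 ∨ π i t = t := by
  rintro s t (⟨i, j, k, l, rfl⟩ | ⟨i, j, k, l, m, rfl⟩)
  · by_cases h : s ∈ [i, j, k, l]
    · simp only [List.mem_cons, List.not_mem_nil, or_false] at h
      exact Or.inl (er_AA1 he h)
    · exact Or.inr (er_AA2 he h)
  · by_cases h : s ∈ [i, j, k, l, m]
    · simp only [List.mem_cons, List.not_mem_nil, or_false] at h
      exact Or.inl (er_PH1 he h)
    · exact Or.inr (er_PH2 he h)

theorem der2_full5 (hP : PP G = ⊥) {x : Fin 5 → G} (hx : closure (Set.range x) = ⊤)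
    {π : Fin 5 → G →* G} (he : Erase x π) {u : G} (hu : u ∈ der2 G) (hπ : ∀ i, π i u = 1) :
    u ∈ closure {g | ∃ i j k l m, [i, j, k, l, m].Nodup ∧ g = PH x i j k l m} := by
  have h1 := elim (T := TA x ∪ TP x) (N := (⊥ : Subgroup G)) (by
      rintro t ht g
      rw [Subgroup.mem_bot, commutatorElement_eq_one_iff_mul_comm]
      refine (der2_central hP ?_ g).symm
      rcases ht with ⟨i, j, k, l, rfl⟩ | ⟨i, j, k, l, m, rfl⟩
      · exact AA_mem x i j k l
      · exact PH_mem x i j k l m) π (by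
      rintro i g hg
      rw [Subgroup.mem_bot] at hg ⊢
      rw [hg, map_one]) (er_T he) (w := u) (by rw [sup_bot_eq]; exact der2_span hP x hx hu)
      (fun i => by rw [hπ i]; exact one_mem _)
  rw [sup_bot_eq] at h1
  refine (Subgroup.closure_le _).2 ?_ h1
  rintro t ⟨⟨i, j, k, l, rfl⟩ | ⟨i, j, k, l, m, rfl⟩, h2⟩
  · obtain ⟨s, hs⟩ := exists_missing [i, j, k, l] (by simp)
    have h3 := h2 s
    rw [er_AA2 he hs] at h3
    rw [h3]; exact one_mem _
  · by_cases h4 : ∀ s, s ∈ [i, j, k, l, m]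
    · exact subset_closure ⟨i, j, k, l, m, nodup_of_full _ rfl h4, rfl⟩
    · push Not at h4
      obtain ⟨s, hs⟩ := h4
      have h3 := h2 s
      rw [er_PH2 he hs] at h3
      rw [h3]; exact one_mem _

theorem der2_full4 (hP : PP G = ⊥) {x : Fin 4 → G} (hx : closure (Set.range x) = ⊤)
    {π : Fin 4 → G →* G} (he : Erase x π) {u : G} (hu : u ∈ der2 G ⊔ gam G 5)
    (hπ : ∀ i, π i u = 1) :
    u ∈ closure {g | ∃ i j k l, [i, j, k, l].Nodup ∧ g = AA x i j k l} ⊔ gam G 5 := by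
  have hT : der2 G ⊔ gam G 5 ≤ closure (TA x) ⊔ gam G 5 := by
    refine sup_le ((der2_span hP x hx).trans ?_) le_sup_right
    rw [closure_le]
    rintro t (ht | ⟨i, j, k, l, m, rfl⟩)
    · exact mem_sup_left (subset_closure ht)
    · exact mem_sup_right (PH_gam x i j k l m)
  have h1 := elim (T := TA x) (N := gam G 5) (by
      rintro t ⟨i, j, k, l, rfl⟩ g
      have : ⁅g, AA x i j k l⁆ = 1 := by
        rw [commutatorElement_eq_one_iff_mul_comm]
        exact (der2_central hP (AA_mem x i j k l) g).symm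
      rw [this]; exact one_mem _) π (fun i g hg => map_mem_gam _ hg)
      (fun i t ht => er_T he i t (Or.inl ht)) (w := u) (hT hu)
      (fun i => by rw [hπ i]; exact one_mem _)
  refine (show closure {t ∈ TA x | ∀ i, π i t = 1} ⊔ gam G 5 ≤
    closure {g | ∃ i j k l, [i, j, k, l].Nodup ∧ g = AA x i j k l} ⊔ gam G 5 from
      sup_le_sup_right ?_ _) h1
  rw [closure_le]
  rintro t ⟨⟨i, j, k, l, rfl⟩, h2⟩
  by_cases h4 : ∀ s, s ∈ [i, j, k, l]
  · exact subset_closure ⟨i, j, k, l, nodup_of_full _ rfl h4, rfl⟩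
  · push Not at h4
    obtain ⟨s, hs⟩ := h4
    have h3 := h2 s
    rw [er_AA2 he hs] at h3
    rw [h3]; exact one_mem _

/-! ### bimultiplicativity -/

theorem kml (hP : PP G = ⊥) {u u' v : G} (hu : u ∈ gam G 2) (hu' : u' ∈ gam G 2)
    (hv : v ∈ gam G 2) : ⁅u * u', v⁆ = ⁅u, v⁆ * ⁅u', v⁆ := by
  rw [comm_mul_left, ← der2_central hP (kap_der2 hu' hv) u, mul_inv_cancel_right,
    der2_central hP (kap_der2 hu' hv)]

theorem kil (hP : PP G = ⊥) {u v : G} (hu : u ∈ gam G 2) (hv : v ∈ gam G 2) :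
    ⁅u⁻¹, v⁆ = ⁅u, v⁆⁻¹ := by
  have := kml hP hu (inv_mem hu) hv
  rw [mul_inv_cancel, commutatorElement_one_left] at this
  exact eq_inv_of_mul_eq_one_right this.symm

theorem kmr (hP : PP G = ⊥) {u v v' : G} (hu : u ∈ gam G 2) (hv : v ∈ gam G 2)
    (hv' : v' ∈ gam G 2) : ⁅u, v * v'⁆ = ⁅u, v⁆ * ⁅u, v'⁆ := by
  rw [comm_mul_right, ← der2_central hP (kap_der2 hu hv') v, mul_inv_cancel_right]

theorem kir (hP : PP G = ⊥) {u v : G} (hu : u ∈ gam G 2) (hv : v ∈ gam G 2) :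
    ⁅u, v⁻¹⁆ = ⁅u, v⁆⁻¹ := by
  have := kmr hP hu hv (inv_mem hv)
  rw [mul_inv_cancel, commutatorElement_one_right] at this
  exact eq_inv_of_mul_eq_one_right this.symm

theorem k42 (hP : PP G = ⊥) {u v : G} (hu : u ∈ gam G 4) (hv : v ∈ gam G 2) : ⁅u, v⁆ = 1 := by
  have : ⁅u, v⁆ ∈ gam G 6 := gam_mem hu hv
  rwa [gam6_bot hP, Subgroup.mem_bot] at this

theorem k33 (hP : PP G = ⊥) {u v : G} (hu : u ∈ gam G 3) (hv : v ∈ gam G 3) : ⁅u, v⁆ = 1 := by
  have : ⁅u, v⁆ ∈ gam G 6 := gam_mem hu hv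
  rwa [gam6_bot hP, Subgroup.mem_bot] at this

theorem kconj (hP : PP G = ⊥) {p v : G} (hp : p ∈ gam G 3) (hv : v ∈ gam G 2) (g : G) :
    ⁅g * p * g⁻¹, v⁆ = ⁅p, v⁆ := by
  have h1 : g * p * g⁻¹ = ⁅g, p⁆ * p := by simp [commutatorElement_def]
  have h2 : ⁅g, p⁆ ∈ gam G 4 := gam_mem (i := 1) (mem_gam_one _) hp
  rw [h1, kml hP (gam_anti (by norm_num) h2) (gam_anti (by norm_num) hp) hv, k42 hP h2 hv,
    one_mul]

theorem gam32 {g : G} (h : g ∈ gam G 3) : g ∈ gam G 2 := gam_anti (by norm_num) h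

theorem PH1 (hP : PP G = ⊥) {ι : Type*} (x : ι → G) (i j k l m : ι) :
    PH x j i k l m = (PH x i j k l m)⁻¹ := by
  unfold PH
  rw [← commutatorElement_inv (x i) (x j)]
  have h1 : ⁅⁅x i, x j⁆⁻¹, x m⁆ = ⁅x i, x j⁆⁻¹ * ⁅⁅x i, x j⁆, x m⁆⁻¹ * ⁅x i, x j⁆⁻¹⁻¹ := by
    simp only [commutatorElement_def]; group
  rw [h1, kconj hP (inv_mem (comm3_mem _ _ _)) (comm_mem_two _ _),
    kil hP (gam32 (comm3_mem _ _ _)) (comm_mem_two _ _)]

theorem PH2 (hP : PP G = ⊥) {ι : Type*} (x : ι → G) (i j k l m : ι) :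
    PH x i j l k m = (PH x i j k l m)⁻¹ := by
  unfold PH
  rw [← commutatorElement_inv (x k) (x l), kir hP (gam32 (comm3_mem _ _ _)) (comm_mem_two _ _)]

theorem ksymm (hP : PP G = ⊥) {u v : G} (hu : u ∈ gam G 2) (hv : v ∈ gam G 2) (y : G) :
    ⁅⁅v, y⁆, u⁆ = ⁅⁅u, y⁆, v⁆ := by
  have hyu : ⁅y, u⁆ ∈ gam G 3 := gam_mem (i := 1) (mem_gam_one _) hu
  have hyv : ⁅y, v⁆ ∈ gam G 3 := gam_mem (i := 1) (mem_gam_one _) hv
  have h1 : y * ⁅u, v⁆ * y⁻¹ = ⁅u, v⁆ := by
    rw [← der2_central hP (kap_der2 hu hv), mul_inv_cancel_right]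
  have h2 : y * ⁅u, v⁆ * y⁻¹ = ⁅⁅y, u⁆ * u, ⁅y, v⁆ * v⁆ := by
    simp only [commutatorElement_def]; group
  rw [h2, kml hP (gam32 hyu) hu (mul_mem (gam32 hyv) hv), kmr hP (gam32 hyu) (gam32 hyv) hv,
    kmr hP hu (gam32 hyv) hv, k33 hP hyu hyv, one_mul, ← mul_assoc] at h1
  have h3 : ⁅⁅y, u⁆, v⁆ * ⁅u, ⁅y, v⁆⁆ = 1 := by
    have := mul_right_cancel (b := ⁅u, v⁆) (h1.trans (one_mul _).symm)
    exact this
  have e1 : ⁅⁅u, y⁆, v⁆ = ⁅⁅y, u⁆, v⁆⁻¹ := by
    rw [← commutatorElement_inv y u, kil hP (gam32 hyu) hv]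
  have e2 : ⁅⁅v, y⁆, u⁆ = ⁅u, ⁅y, v⁆⁆ := by
    rw [← commutatorElement_inv y v, kil hP (gam32 hyv) hu, commutatorElement_inv]
  rw [e1, e2]
  exact eq_inv_of_mul_eq_one_right h3

theorem PH3 (hP : PP G = ⊥) {ι : Type*} (x : ι → G) (i j k l m : ι) :
    PH x k l i j m = PH x i j k l m := ksymm hP (comm_mem_two _ _) (comm_mem_two _ _) _

theorem jac_mem (a b c : G) : ⁅⁅a, b⁆, c⁆ * ⁅⁅b, c⁆, a⁆ * ⁅⁅c, a⁆, b⁆ ∈ der2 G := by
  rw [← QuotientGroup.eq_one_iff]
  exact metab_quot.jacobi (a : G ⧸ der2 G) b c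

theorem PH4 (hP : PP G = ⊥) {ι : Type*} (x : ι → G) (i j k l m : ι) :
    PH x i j k l m * PH x j m k l i * PH x m i k l j = 1 := by
  unfold PH
  rw [← kml hP (gam32 (comm3_mem _ _ _)) (gam32 (comm3_mem _ _ _)) (comm_mem_two _ _),
    ← kml hP (mul_mem (gam32 (comm3_mem _ _ _)) (gam32 (comm3_mem _ _ _)))
      (gam32 (comm3_mem _ _ _)) (comm_mem_two _ _)]
  exact k42 hP (der2_gam (jac_mem _ _ _)) (comm_mem_two _ _)

end

end Pool.Agent.V1148.VG
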