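import Pool.Agent.V1148.VG.I

set_option autoImplicit false
set_option linter.deprecated false
set_option linter.unusedVariables false

open scoped commutatorElement

namespace Pool.Agent.V1148.VG

open Subgroup

theorem lin {M : Type*} [AddCommGroup M] {z1 z2 z3 z4 z5 : M} (h12 : z1 + -z2 = 0)
    (h23 : z2 + z3 = 0) (h34 : z4 + -z3 = 0) (h45 : z4 + -z5 = 0) (h51 : z1 + -z5 = 0)
    (h : (5 : ℕ) • z1 = 0) : z1 = 0 ∧ z2 = 0 ∧ z3 = 0 ∧ z4 = 0 ∧ z5 = 0 := by
  have e2 : z2 = z1 := by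
    have : z2 = z1 + -(z1 + -z2) := by abel
    rw [this, h12]; abel
  have e5 : z5 = z1 := by
    have : z5 = z1 + -(z1 + -z5) := by abel
    rw [this, h51]; abel
  have e4 : z4 = z1 := by
    have : z4 = z5 + (z4 + -z5) := by abel
    rw [this, h45, e5]; abel
  have e3 : z3 = z1 := by
    have : z3 = z4 + -(z4 + -z3) := by abel
    rw [this, h34, e4]; abel
  have e6 : z1 + z1 = 0 := by
    rw [e2, e3] at h23; exact h23
  have e7 : z1 = 0 := by
    have : z1 = (5 : ℕ) • z1 + -(z1 + z1) + -(z1 + z1) := by abel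
    rw [this, h, e6]; abel
  rw [e2, e3, e4, e5, e7]
  simp

theorem canon5 : ∀ i j : Fin 5, i < j → ∀ k : Fin 5, i < k → ∀ l, k < l → ∀ m,
    [i, j, k, l, m].Nodup → (i, j, k, l, m) ∈ ([(0,1,2,3,4), (0,1,2,4,3), (0,1,3,4,2),
      (0,2,1,3,4), (0,2,1,4,3), (0,2,3,4,1), (0,3,1,2,4), (0,3,1,4,2), (0,3,2,4,1),
      (0,4,1,2,3), (0,4,1,3,2), (0,4,2,3,1), (1,2,3,4,0), (1,3,2,4,0), (1,4,2,3,0)] :
      List (Fin 5 × Fin 5 × Fin 5 × Fin 5 × Fin 5)) := by
  decide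

theorem kill {M : Type*} [AddCommGroup M] (φ : Fin 5 → Fin 5 → Fin 5 → Fin 5 → Fin 5 → M)
    (s1 : ∀ i j k l m, φ j i k l m = - φ i j k l m)
    (s2 : ∀ i j k l m, φ i j l k m = - φ i j k l m)
    (s3 : ∀ i j k l m, φ k l i j m = φ i j k l m)
    (s4 : ∀ i j k l m, φ i j k l m + φ j m k l i + φ m i k l j = 0)
    (s5 : ∀ i j k l m, (5 : ℕ) • φ i j k l m = 0)
    (b1 : φ 0 1 2 3 4 = 0) (b2 : φ 0 1 2 4 3 = 0) (b3 : φ 0 2 1 3 4 = 0)
    (b4 : φ 0 2 3 4 1 = 0) (b5 : φ 0 3 2 4 1 = 0) :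
    ∀ i j k l m, [i, j, k, l, m].Nodup → φ i j k l m = 0 := by
  have r01 : φ 0 1 3 4 2 = 0 := by
    have := s4 2 3 0 1 4
    rw [s3 0 1 2 3 4, s3 0 1 3 4 2, s3 0 1 4 2 3, s2 0 1 2 4 3, b1, b2] at this
    simpa using this
  have r02 : φ 0 2 1 4 3 = 0 := by
    have := s4 1 3 0 2 4
    rw [s3 0 2 1 3 4, s3 0 2 3 4 1, s3 0 2 4 1 3, s2 0 2 1 4 3, b3, b4] at this
    simpa using this
  have r24 : φ 1 3 2 4 0 = 0 := by
    have := s4 0 1 2 4 3
    rw [s1 0 3 2 4 1, b2, b5] at this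
    simpa using this
  have r13 : φ 0 4 1 3 2 = 0 := by
    have := s4 0 2 1 3 4
    rw [s3 1 3 2 4 0, s1 0 4 1 3 2, b3, r24] at this
    simpa using this
  have r34 : φ 1 2 3 4 0 = 0 := by
    have := s4 0 1 3 4 2
    rw [s1 0 2 3 4 1, b4, r01] at this
    simpa using this
  have r12 := s4 0 3 1 2 4
  rw [s3 1 2 3 4 0, s1 0 4 1 2 3, r34, add_zero] at r12
  have r04 := s4 1 2 0 4 3
  rw [s3 0 4 1 2 3, s3 0 4 2 3 1, s3 0 4 3 1 2, s2 0 4 1 3 2, r13, neg_zero, add_zero] at r04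
  have r23 := s4 0 1 2 3 4
  rw [s1 0 4 2 3 1, b1, zero_add] at r23
  have r14 := s4 0 2 1 4 3
  rw [s3 1 4 2 3 0, s1 0 3 1 4 2, r02, zero_add] at r14
  have r03 := s4 1 2 0 3 4
  rw [s3 0 3 1 2 4, s3 0 3 2 4 1, s3 0 3 4 1 2, s2 0 3 1 4 2, b5, add_zero] at r03
  obtain ⟨z1, z2, z3, z4, z5⟩ := lin r12 r04 r23 r14 r03 (s5 _ _ _ _ _)
  have hcan : ∀ i j k l m, i < j → i < k → k < l → [i, j, k, l, m].Nodup → φ i j k l m = 0 := by
    intro i j k l m h1 h2 h3 h4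
    have h5 := canon5 i j h1 k h2 l h3 m h4
    simp only [List.mem_cons, List.not_mem_nil, or_false, Prod.mk.injEq] at h5
    rcases h5 with h5 | h5 | h5 | h5 | h5 | h5 | h5 | h5 | h5 | h5 | h5 | h5 | h5 | h5 | h5 <;>
    obtain ⟨rfl, rfl, rfl, rfl, rfl⟩ := h5 <;> assumption
  have hcan2 : ∀ i j k l m, i < j → k < l → [i, j, k, l, m].Nodup → φ i j k l m = 0 := by
    intro i j k l m h1 h3 h4
    rcases lt_trichotomy i k with h2 | h2 | h2
    · exact hcan i j k l m h1 h2 h3 h4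
    · subst h2; simp at h4
    · rw [s3 k l i j m]
      refine hcan k l i j m h3 h2 h1 ?_
      simp only [List.nodup_cons, List.mem_cons, List.not_mem_nil, or_false, not_or] at h4 ⊢
      tauto
  have hcan3 : ∀ i j k l m, i < j → [i, j, k, l, m].Nodup → φ i j k l m = 0 := by
    intro i j k l m h1 h4
    rcases lt_trichotomy k l with h2 | h2 | h2
    · exact hcan2 i j k l m h1 h2 h4
    · subst h2; simp at h4
    · rw [s2 i j l k m, neg_eq_zero]
      refine hcan2 i j l k m h1 h2 ?_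
      simp only [List.nodup_cons, List.mem_cons, List.not_mem_nil, or_false, not_or] at h4 ⊢
      tauto
  intro i j k l m h4
  rcases lt_trichotomy i j with h2 | h2 | h2
  · exact hcan3 i j k l m h2 h4
  · subst h2; simp at h4
  · rw [s1 j i k l m, neg_eq_zero]
    refine hcan3 j i k l m h2 ?_
    simp only [List.nodup_cons, List.mem_cons, List.not_mem_nil, or_false, not_or] at h4 ⊢
    tauto

theorem canon4 : ∀ i j : Fin 4, i < j → ∀ k : Fin 4, i < k → ∀ l, k < l →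
    [i, j, k, l].Nodup → (i, j, k, l) ∈ ([(0,1,2,3), (0,2,1,3), (0,3,1,2)] :
      List (Fin 4 × Fin 4 × Fin 4 × Fin 4)) := by
  decide

section
variable {G : Type*} [Group G]

theorem AA_full (hP : PP G = ⊥) (x : Fin 4 → G) (i j k l : Fin 4) (hd : [i, j, k, l].Nodup) :
    AA x i j k l ∈ closure {AA x 0 1 2 3, AA x 0 2 1 3, AA x 0 3 1 2} := by
  have s1 : ∀ i j k l, AA x j i k l = (AA x i j k l)⁻¹ := by
    intro i j k l
    unfold AA
    rw [← commutatorElement_inv (x i) (x j), kil hP (comm_mem_two _ _) (comm_mem_two _ _)]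
  have s2 : ∀ i j k l, AA x i j l k = (AA x i j k l)⁻¹ := by
    intro i j k l
    unfold AA
    rw [← commutatorElement_inv (x k) (x l), kir hP (comm_mem_two _ _) (comm_mem_two _ _)]
  have s3 : ∀ i j k l, AA x k l i j = (AA x i j k l)⁻¹ := by
    intro i j k l
    unfold AA
    rw [commutatorElement_inv]
  have hcan : ∀ i j k l, i < j → i < k → k < l → [i, j, k, l].Nodup →
      AA x i j k l ∈ closure {AA x 0 1 2 3, AA x 0 2 1 3, AA x 0 3 1 2} := by
    intro i j k l h1 h2 h3 h4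
    have h5 := canon4 i j h1 k h2 l h3 h4
    simp only [List.mem_cons, List.not_mem_nil, or_false, Prod.mk.injEq] at h5
    rcases h5 with h5 | h5 | h5 <;>
    obtain ⟨rfl, rfl, rfl, rfl⟩ := h5 <;> exact subset_closure (by simp)
  have hcan2 : ∀ i j k l, i < j → k < l → [i, j, k, l].Nodup →
      AA x i j k l ∈ closure {AA x 0 1 2 3, AA x 0 2 1 3, AA x 0 3 1 2} := by
    intro i j k l h1 h3 h4
    rcases lt_trichotomy i k with h2 | h2 | h2
    · exact hcan i j k l h1 h2 h3 h4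
    · subst h2; simp at h4
    · rw [s3 k l i j]
      refine inv_mem (hcan k l i j h3 h2 h1 ?_)
      simp only [List.nodup_cons, List.mem_cons, List.not_mem_nil, or_false, not_or] at h4 ⊢
      tauto
  have hcan3 : ∀ i j k l, i < j → [i, j, k, l].Nodup →
      AA x i j k l ∈ closure {AA x 0 1 2 3, AA x 0 2 1 3, AA x 0 3 1 2} := by
    intro i j k l h1 h4
    rcases lt_trichotomy k l with h2 | h2 | h2
    · exact hcan2 i j k l h1 h2 h4
    · subst h2; simp at h4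
    · rw [s2 i j l k]
      refine inv_mem (hcan2 i j l k h1 h2 ?_)
      simp only [List.nodup_cons, List.mem_cons, List.not_mem_nil, or_false, not_or] at h4 ⊢
      tauto
  rcases lt_trichotomy i j with h2 | h2 | h2
  · exact hcan3 i j k l h2 hd
  · subst h2; simp at hd
  · rw [s1 j i k l]
    refine inv_mem (hcan3 j i k l h2 ?_)
    simp only [List.nodup_cons, List.mem_cons, List.not_mem_nil, or_false, not_or] at hd ⊢
    tauto

/-- the five basic elements -/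
def BB (x : Fin 5 → G) : Fin 5 → G :=
  ![PH x 0 1 2 3 4, PH x 0 1 2 4 3, PH x 0 2 1 3 4, PH x 0 2 3 4 1, PH x 0 3 2 4 1]

theorem PH_full (hP : PP G = ⊥) (x : Fin 5 → G) (i j k l m : Fin 5)
    (hd : [i, j, k, l, m].Nodup) : PH x i j k l m ∈ closure (Set.range (BB x)) := by
  letI : CommGroup (gam G 5) :=
    { (inferInstance : Group (gam G 5)) with
      mul_comm := fun a b => Subtype.ext (gam5_central hP a.2 b.1) }
  let N : Subgroup (gam G 5) := (closure (Set.range (BB x))).subgroupOf (gam G 5)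
  let φ : Fin 5 → Fin 5 → Fin 5 → Fin 5 → Fin 5 → Additive (gam G 5 ⧸ N) := fun i j k l m =>
    Additive.ofMul ((⟨PH x i j k l m, PH_gam x i j k l m⟩ : gam G 5) : gam G 5 ⧸ N)
  have hz : ∀ i j k l m, φ i j k l m = 0 ↔ PH x i j k l m ∈ closure (Set.range (BB x)) := by
    intro i j k l m
    have : φ i j k l m = 0 ↔ ((⟨PH x i j k l m, PH_gam x i j k l m⟩ : gam G 5) : gam G 5 ⧸ N) = 1 :=
      Iff.rfl
    rw [this, QuotientGroup.eq_one_iff, Subgroup.mem_subgroupOf]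
  rw [← hz]
  refine kill φ ?_ ?_ ?_ ?_ ?_ ((hz _ _ _ _ _).2 (subset_closure ⟨0, rfl⟩))
    ((hz _ _ _ _ _).2 (subset_closure ⟨1, rfl⟩)) ((hz _ _ _ _ _).2 (subset_closure ⟨2, rfl⟩))
    ((hz _ _ _ _ _).2 (subset_closure ⟨3, rfl⟩)) ((hz _ _ _ _ _).2 (subset_closure ⟨4, rfl⟩))
    i j k l m hd
  · intro i j k l m
    refine congrArg (fun g : gam G 5 => (g : gam G 5 ⧸ N)) (a₂ := (⟨_, PH_gam x i j k l m⟩)⁻¹) ?_
    exact Subtype.ext (PH1 hP x i j k l m)
  · intro i j k l m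
    refine congrArg (fun g : gam G 5 => (g : gam G 5 ⧸ N)) (a₂ := (⟨_, PH_gam x i j k l m⟩)⁻¹) ?_
    exact Subtype.ext (PH2 hP x i j k l m)
  · intro i j k l m
    refine congrArg (fun g : gam G 5 => (g : gam G 5 ⧸ N)) (a₂ := ⟨_, PH_gam x i j k l m⟩) ?_
    exact Subtype.ext (PH3 hP x i j k l m)
  · intro i j k l m
    refine congrArg (fun g : gam G 5 => (g : gam G 5 ⧸ N)) (a₁ := ⟨_, PH_gam x i j k l m⟩ *
      ⟨_, PH_gam x j m k l i⟩ * ⟨_, PH_gam x m i k l j⟩) (a₂ := 1) ?_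
    exact Subtype.ext (PH4 hP x i j k l m)
  · intro i j k l m
    refine congrArg (fun g : gam G 5 => (g : gam G 5 ⧸ N)) (a₁ := ⟨_, PH_gam x i j k l m⟩ ^ 5)
      (a₂ := 1) ?_
    exact Subtype.ext (exp_gam5 hP (PH_gam x i j k l m))

end

end Pool.Agent.V1148.VG
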