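import Pool.Agent.V1148.VG.J

set_option autoImplicit false
set_option linter.deprecated false
set_option linter.unusedVariables false

open scoped commutatorElement

namespace Pool.Agent.V1148.VG

open Subgroup

section
variable {G H : Type*} [Group G] [Group H]

theorem map_AA {ι : Type*} (f : G →* H) (x : ι → G) (i j k l : ι) :
    f (AA x i j k l) = AA (fun t => f (x t)) i j k l := by
  simp only [AA, map_commutatorElement]

theorem map_PH {ι : Type*} (f : G →* H) (x : ι → G) (i j k l m : ι) :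
    f (PH x i j k l m) = PH (fun t => f (x t)) i j k l m := by
  simp only [PH, map_commutatorElement]

theorem map_BB (f : G →* H) (x : Fin 5 → G) (i : Fin 5) :
    f (BB x i) = BB (fun t => f (x t)) i := by
  fin_cases i <;> exact map_PH f x _ _ _ _ _

theorem oneb_AA {n : ℕ} (g : Fin n → G) {a : G} {s : Fin n} (hs : ∀ j, j ≠ s → g j = a)
    {i j k l : Fin n} (hd : [i, j, k, l].Nodup) : AA g i j k l = 1 := by
  simp only [List.nodup_cons, List.mem_cons, List.not_mem_nil, or_false, not_or] at hd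
  unfold AA
  by_cases h : k = s ∨ l = s
  · have h1 : i ≠ s := by
      rintro rfl
      rcases h with h | h
      · exact hd.1.2.1 h.symm
      · exact hd.1.2.2 h.symm
    have h2 : j ≠ s := by
      rintro rfl
      rcases h with h | h
      · exact hd.2.1.1 h.symm
      · exact hd.2.1.2 h.symm
    rw [hs i h1, hs j h2, commutatorElement_self, commutatorElement_one_left]
  · rw [not_or] at h
    rw [hs k h.1, hs l h.2, commutatorElement_self, commutatorElement_one_right]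

theorem oneb_PH {n : ℕ} (g : Fin n → G) {a : G} {s : Fin n} (hs : ∀ j, j ≠ s → g j = a)
    {i j k l m : Fin n} (hd : [i, j, k, l, m].Nodup) : PH g i j k l m = 1 := by
  simp only [List.nodup_cons, List.mem_cons, List.not_mem_nil, or_false, not_or] at hd
  unfold PH
  by_cases h : k = s ∨ l = s
  · have h1 : i ≠ s := by
      rintro rfl
      rcases h with h | h
      · exact hd.1.2.1 h.symm
      · exact hd.1.2.2.1 h.symm
    have h2 : j ≠ s := by
      rintro rfl
      rcases h with h | h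
      · exact hd.2.1.1 h.symm
      · exact hd.2.1.2.1 h.symm
    rw [hs i h1, hs j h2, commutatorElement_self, commutatorElement_one_left,
      commutatorElement_one_left]
  · rw [not_or] at h
    rw [hs k h.1, hs l h.2, commutatorElement_self, commutatorElement_one_right]

/-- the five evaluations -/
def gg (a b : G) : Fin 5 → Fin 5 → G :=
  ![![a, b, a, b, a], ![a, b, a, a, b], ![b, b, a, a, a], ![a, a, b, a, b], ![a, a, a, b, b]]

theorem gg_off (a b : G) : ∀ i j : Fin 5, j ≠ i → BB (gg a b i) j = 1 := by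
  intro i j hij
  fin_cases i <;> fin_cases j <;> first
    | exact absurd rfl hij
    | simp [BB, PH, gg]

theorem gg_mem (a b : G) : ∀ i j : Fin 5, gg a b i j ∈ Subgroup.closure ({a, b} : Set G) := by
  have ha : a ∈ Subgroup.closure ({a, b} : Set G) := subset_closure (by simp)
  have hb : b ∈ Subgroup.closure ({a, b} : Set G) := subset_closure (by simp)
  intro i j
  fin_cases i <;> fin_cases j <;> first
    | exact ha
    | exact hb

end

theorem S5 (w : FF 5) (hT : TT w) (hπ : ∀ i, er i w ∈ PP (FF 5)) : w ∈ PP (FF 5) := by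
  obtain ⟨a, b, t1, t2, t3⟩ := test6
  have hP : PP (QQ 5) = ⊥ := PP_quot
  have hx := xx_gen 5
  have he := erase 5
  have hU : ∀ u ∈ der2 (QQ 5) ⊔ gam (QQ 5) 6, (∀ i, pi i u = 1) →
      ∀ ψ : QQ 5 →* UT 6, OneB ψ a b → ψ u = 1 := by
    intro u hu hpu ψ hψ
    rw [gam6_bot hP, sup_bot_eq] at hu
    have h := der2_full5 hP hx he hu hpu
    refine (Subgroup.closure_le ψ.ker).2 ?_ h
    rintro _ ⟨i, j, k, l, m, hd, rfl⟩
    rw [SetLike.mem_coe, MonoidHom.mem_ker, map_PH]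
    obtain ⟨s, _, hs⟩ := hψ
    exact oneb_PH _ hs hd
  have hM := Mstep (n := 5) (by norm_num) le_rfl 0 (a := a) (b := b) t1 w hT hπ hU
  rw [gam6_bot hP, sup_bot_eq] at hM
  have hf := der2_full5 hP hx he hM (pi_mk w hπ)
  have hB : (w : QQ 5) ∈ closure (Set.range (BB (xx 5))) := by
    refine (Subgroup.closure_le _).2 ?_ hf
    rintro _ ⟨i, j, k, l, m, hd, rfl⟩
    exact PH_full hP _ _ _ _ _ _ hd
  have hev : ∀ i : Fin 5, ∃ ψ : QQ 5 →* UT 6, (∀ j, ψ (xx 5 j) = gg a b i j) ∧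
      ψ (w : QQ 5) = 1 := by
    intro i
    obtain ⟨ψ, h7, h8⟩ := exEv le_rfl a b 5 (gg a b i) (gg_mem a b i)
    exact ⟨ψ, h7, h8 w hT⟩
  choose ψ hψ1 hψ2 using hev
  have hBB : ∀ i j, ψ i (BB (xx 5) j) = BB (gg a b i) j := by
    intro i j
    rw [map_BB]
    congr 1
    exact funext (hψ1 i)
  have hBg : ∀ i, BB (xx 5) i ∈ gam (QQ 5) 5 := by
    intro i
    fin_cases i <;> exact PH_gam _ _ _ _ _ _
  rw [← QuotientGroup.eq_one_iff]
  refine dual (BB (xx 5)) (fun i j => gam5_central hP (hBg i) _) (fun i => exp_gam5 hP (hBg i)) ψ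
    ?_ ?_ hB hψ2
  · intro i j hij
    rw [hBB]; exact gg_off a b i j hij
  · intro i c hc
    rw [hBB] at hc
    fin_cases i
    · exact t3 c hc
    · exact t3 c hc
    · exact t2 c hc
    · exact t3 c hc
    · exact t3 c hc

theorem three_exp {G : Type*} [Group G] {A B C : G} (hA : ∀ g, A * g = g * A)
    (hB : ∀ g, B * g = g * B) (hC : ∀ g, C * g = g * C) {e : G}
    (he : e ∈ closure ({A, B, C} : Set G)) : ∃ p q r : ℤ, e = A ^ p * B ^ q * C ^ r := by
  have cB : ∀ (n : ℤ) (g : G), B ^ n * g = g * B ^ n := fun n g =>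
    (Commute.zpow_left (show Commute B g from hB g) n).eq
  have cC : ∀ (n : ℤ) (g : G), C ^ n * g = g * C ^ n := fun n g =>
    (Commute.zpow_left (show Commute C g from hC g) n).eq
  induction he using Subgroup.closure_induction with
  | mem x hx =>
    rcases hx with rfl | rfl | rfl
    · exact ⟨1, 0, 0, by simp⟩
    · exact ⟨0, 1, 0, by simp⟩
    · exact ⟨0, 0, 1, by simp⟩
  | one => exact ⟨0, 0, 0, by simp⟩
  | mul a b _ _ iha ihb =>
    obtain ⟨p, q, r, rfl⟩ := iha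
    obtain ⟨p', q', r', rfl⟩ := ihb
    refine ⟨p + p', q + q', r + r', ?_⟩
    calc A ^ p * B ^ q * C ^ r * (A ^ p' * B ^ q' * C ^ r')
        = A ^ p * B ^ q * (C ^ r * A ^ p') * B ^ q' * C ^ r' := by simp only [mul_assoc]
      _ = A ^ p * B ^ q * (A ^ p' * C ^ r) * B ^ q' * C ^ r' := by rw [cC r (A ^ p')]
      _ = A ^ p * (B ^ q * A ^ p') * (C ^ r * B ^ q') * C ^ r' := by simp only [mul_assoc]
      _ = A ^ p * (A ^ p' * B ^ q) * (B ^ q' * C ^ r) * C ^ r' := by
        rw [cB q (A ^ p'), cC r (B ^ q')]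
      _ = A ^ (p + p') * B ^ (q + q') * C ^ (r + r') := by simp only [zpow_add, mul_assoc]
  | inv a _ iha =>
    obtain ⟨p, q, r, rfl⟩ := iha
    refine ⟨-p, -q, -r, ?_⟩
    rw [mul_inv_rev, mul_inv_rev, ← zpow_neg, ← zpow_neg, ← zpow_neg, cC, cB]

theorem weight_ge {n : ℕ} (wt : Fin n → ℕ) (h1 : ∀ i, 1 ≤ wt i) (s : Fin n) (hs : 2 ≤ wt s) :
    ∀ l : List (Fin n), l.length ≤ (l.map wt).sum ∧ (s ∈ l → l.length + 1 ≤ (l.map wt).sum) := by
  intro l
  induction l with
  | nil => simp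
  | cons t l ih =>
    simp only [List.length_cons, List.map_cons, List.sum_cons, List.mem_cons]
    have := h1 t
    refine ⟨by omega, ?_⟩
    rintro (rfl | h)
    · omega
    · have := ih.2 h; omega

theorem zp5 {G : Type*} [Group G] {A : G} (hA : A ^ 5 = 1) {p : ℤ} (hp : (5 : ℤ) ∣ p) :
    A ^ p = 1 := by
  obtain ⟨k, rfl⟩ := hp
  rw [zpow_mul]
  have : A ^ (5 : ℤ) = 1 := by exact_mod_cast hA
  rw [this, one_zpow]

theorem S4 (w : FF 4) (hT : TT w) (hπ : ∀ i, er i w ∈ PP (FF 4)) :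
    (w : QQ 4) ∈ gam (QQ 4) 5 := by
  have hP : PP (QQ 4) = ⊥ := PP_quot
  have hx := xx_gen 4
  have he := erase 4
  have hM : (w : QQ 4) ∈ der2 (QQ 4) ⊔ gam (QQ 4) 5 := by
    obtain ⟨a, b, t5⟩ := test5
    refine Mstep (n := 4) (by norm_num) (by norm_num) 0 (a := a) (b := b) t5 w hT hπ ?_
    intro u hu hpu ψ hψ
    have h := der2_full4 hP hx he hu hpu
    refine (show closure {g | ∃ i j k l, [i, j, k, l].Nodup ∧ g = AA (xx 4) i j k l} ⊔
      gam (QQ 4) 5 ≤ ψ.ker from sup_le ?_ ?_) h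
    · rw [closure_le]
      rintro _ ⟨i, j, k, l, hd, rfl⟩
      rw [SetLike.mem_coe, MonoidHom.mem_ker, map_AA]
      obtain ⟨s, _, hs⟩ := hψ
      exact oneb_AA _ hs hd
    · intro g hg
      have := map_mem_gam ψ hg
      rwa [gam_UT_bot le_rfl (by norm_num)] at this
  have hf := der2_full4 hP hx he hM (pi_mk w hπ)
  have hB : (w : QQ 4) ∈ closure ({AA (xx 4) 0 1 2 3, AA (xx 4) 0 2 1 3, AA (xx 4) 0 3 1 2} :
      Set (QQ 4)) ⊔ gam (QQ 4) 5 := by
    refine (show closure {g | ∃ i j k l, [i, j, k, l].Nodup ∧ g = AA (xx 4) i j k l} ⊔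
      gam (QQ 4) 5 ≤ _ from sup_le_sup_right ?_ _) hf
    rw [closure_le]
    rintro _ ⟨i, j, k, l, hd, rfl⟩
    exact AA_full hP _ _ _ _ _ hd
  obtain ⟨e, hee, v, hv, hev⟩ := Subgroup.mem_sup_of_normal_right.1 hB
  obtain ⟨p, q, r, hpqr⟩ := three_exp (fun g => der2_central hP (AA_mem _ _ _ _ _) g)
    (fun g => der2_central hP (AA_mem _ _ _ _ _) g)
    (fun g => der2_central hP (AA_mem _ _ _ _ _) g) hee
  have hpe : ∀ i, pi i e = 1 := by
    intro i
    have h1 : ∀ j k l m, [j, k, l, m].Nodup → pi i (AA (xx 4) j k l m) = 1 := by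
      intro j k l m hd
      by_cases h : i ∈ [j, k, l, m]
      · simp only [List.mem_cons, List.not_mem_nil, or_false] at h
        exact er_AA1 he h
      · exfalso
        have : (i :: [j, k, l, m]).Nodup := List.nodup_cons.2 ⟨h, hd⟩
        have h2 := List.Nodup.length_le_card this
        simp at h2
    rw [hpqr, map_mul, map_mul, map_zpow, map_zpow, map_zpow, h1 _ _ _ _ (by decide),
      h1 _ _ _ _ (by decide), h1 _ _ _ _ (by decide)]
    simp
  have hpv : ∀ i, pi i v = 1 := by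
    intro i
    have h6 := pi_mk w hπ i
    rw [← hev, map_mul, hpe i, one_mul] at h6
    exact h6
  have hv2 := full hx he 5 (by norm_num) hv hpv
  rw [gam6_bot hP, sup_bot_eq] at hv2
  obtain ⟨a, b, t1, t2, t3⟩ := test6
  have key : ∀ (g : Fin 4 → UT 6), (∀ i, g i ∈ Subgroup.closure ({a, b} : Set (UT 6))) →
      ∀ s, g s ∈ gam (UT 6) 2 →
      AA g 0 1 2 3 ^ p * AA g 0 2 1 3 ^ q * AA g 0 3 1 2 ^ r = 1 := by
    intro g hg s hs
    obtain ⟨ψ, h7, h8⟩ := exEv le_rfl a b 4 g hg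
    have h9 := h8 w hT
    have hfg : (fun t => ψ (xx 4 t)) = g := funext h7
    have hψv : ψ v = 1 := by
      refine (show closure (FLC (xx 4) 5) ≤ ψ.ker from ?_) hv2
      rw [closure_le]
      rintro _ ⟨l, hl, hfl, rfl⟩
      rw [SetLike.mem_coe, MonoidHom.mem_ker, map_lc, hfg]
      have h10 := lc_mem_weight g (fun i => if i = s then 2 else 1) (by
        intro i
        by_cases h : i = s
        · subst h; simpa using hs
        · simp only [if_neg h]; exact mem_gam_one _) l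
      have h11 := (weight_ge (fun i : Fin 4 => if i = s then 2 else 1) (by
        intro i; split_ifs <;> norm_num) s (by simp) l).2 (hfl s)
      rw [hl] at h11
      have h12 := gam_anti h11 h10
      rwa [gam_UT_bot le_rfl (by norm_num), Subgroup.mem_bot] at h12
    rw [← hev, map_mul, hψv, mul_one, hpqr, map_mul, map_mul, map_zpow, map_zpow, map_zpow,
      map_AA, map_AA, map_AA, hfg] at h9
    exact h9
  have ha : a ∈ Subgroup.closure ({a, b} : Set (UT 6)) := subset_closure (by simp)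
  have hb : b ∈ Subgroup.closure ({a, b} : Set (UT 6)) := subset_closure (by simp)
  set c := ⁅b, a⁆ with hc
  have hcm : c ∈ Subgroup.closure ({a, b} : Set (UT 6)) := by
    rw [hc, commutatorElement_def]
    exact mul_mem (mul_mem (mul_mem hb ha) (inv_mem hb)) (inv_mem ha)
  have hc2 : c ∈ gam (UT 6) 2 := comm_mem_two _ _
  set u := ⁅c, a⁆ with hu
  set z := ⁅u, c⁆ with hz
  have hzc : ∀ g : UT 6, g * z * g⁻¹ = z := by
    intro g
    have h1 : ⁅g, z⁆ ∈ gam (UT 6) 6 :=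
      gam_mem (i := 1) (j := 5) (mem_gam_one _) (gam_mem (i := 3) (j := 2)
        (gam_mem (i := 2) (j := 1) hc2 (mem_gam_one _)) hc2)
    rw [gam_UT_bot le_rfl (by norm_num), Subgroup.mem_bot,
      commutatorElement_eq_one_iff_mul_comm] at h1
    rw [h1, mul_inv_cancel_right]
  have hzc' : ∀ g : UT 6, g * z⁻¹ * g⁻¹ = z⁻¹ := by
    intro g
    have := congrArg (fun y => y⁻¹) (hzc g)
    simp only [mul_inv_rev, inv_inv] at this
    rw [mul_assoc]; exact this
  have e1 : ⁅u, c⁻¹⁆ = z⁻¹ := by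
    rw [← hzc' c⁻¹, hz]; simp only [commutatorElement_def]; group
  have e2 : ⁅u⁻¹, c⁆ = z⁻¹ := by
    rw [← hzc' u⁻¹, hz]; simp only [commutatorElement_def]; group
  have e3 : ⁅c⁻¹, u⁆ = z := by
    rw [← hzc c⁻¹, hz]; simp only [commutatorElement_def]; group
  have hab : ⁅a, b⁆ = c⁻¹ := (commutatorElement_inv b a).symm
  have hac : ⁅a, c⁆ = u⁻¹ := (commutatorElement_inv c a).symm
  have k1 : (5 : ℤ) ∣ p - r := by
    have h1 := key ![c, a, b, a] (by intro i; fin_cases i <;> assumption) 0 hc2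
    have f1 : AA ![c, a, b, a] 0 1 2 3 = z := rfl
    have f2 : AA ![c, a, b, a] 0 2 1 3 = 1 := by
      show ⁅⁅c, b⁆, ⁅a, a⁆⁆ = 1
      simp
    have f3 : AA ![c, a, b, a] 0 3 1 2 = z⁻¹ := by
      show ⁅⁅c, a⁆, ⁅a, b⁆⁆ = z⁻¹
      rw [hab]; exact e1
    rw [f1, f2, f3, one_zpow, mul_one, inv_zpow', ← zpow_add, ← sub_eq_add_neg] at h1
    exact t2 _ h1
  have k2 : (5 : ℤ) ∣ q + r := by
    have h1 := key ![c, b, a, a] (by intro i; fin_cases i <;> assumption) 0 hc2
    have f1 : AA ![c, b, a, a] 0 1 2 3 = 1 := by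
      show ⁅⁅c, b⁆, ⁅a, a⁆⁆ = 1
      simp
    have f2 : AA ![c, b, a, a] 0 2 1 3 = z := rfl
    have f3 : AA ![c, b, a, a] 0 3 1 2 = z := rfl
    rw [f1, f2, f3, one_zpow, one_mul, ← zpow_add] at h1
    exact t2 _ h1
  have k3 : (5 : ℤ) ∣ -p + q := by
    have h1 := key ![a, c, b, a] (by intro i; fin_cases i <;> assumption) 1 hc2
    have f1 : AA ![a, c, b, a] 0 1 2 3 = z⁻¹ := by
      show ⁅⁅a, c⁆, ⁅b, a⁆⁆ = z⁻¹
      rw [hac]; exact e2
    have f2 : AA ![a, c, b, a] 0 2 1 3 = z := by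
      show ⁅⁅a, b⁆, ⁅c, a⁆⁆ = z
      rw [hab]; exact e3
    have f3 : AA ![a, c, b, a] 0 3 1 2 = 1 := by
      show ⁅⁅a, a⁆, ⁅c, b⁆⁆ = 1
      simp
    rw [f1, f2, f3, one_zpow, mul_one, inv_zpow', ← zpow_add] at h1
    exact t2 _ h1
  have hp : (5 : ℤ) ∣ p := by omega
  have hq : (5 : ℤ) ∣ q := by omega
  have hr : (5 : ℤ) ∣ r := by omega
  have hA5 : ∀ i j k l, AA (xx 4) i j k l ^ 5 = 1 := fun i j k l =>
    exp_gam3 hP (gam_anti (by norm_num) (der2_gam (AA_mem (xx 4) i j k l)))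
  have he1 : e = 1 := by
    rw [hpqr, zp5 (hA5 _ _ _ _) hp, zp5 (hA5 _ _ _ _) hq, zp5 (hA5 _ _ _ _) hr]
    simp
  rw [← hev, he1, one_mul]
  exact hv

theorem S3 (w : FF 3) (hT : TT w) (hπ : ∀ i, er i w ∈ PP (FF 3)) :
    (w : QQ 3) ∈ gam (QQ 3) 4 := by
  have hle : der2 (QQ 3) ⊔ gam (QQ 3) 4 ≤ gam (QQ 3) 4 := sup_le der2_gam le_rfl
  obtain ⟨a, b, t4⟩ := test4
  refine hle (Mstep (n := 3) le_rfl (by norm_num) 0 (a := a) (b := b) t4 w hT hπ ?_)
  intro u hu _ ψ _
  have := map_mem_gam ψ (hle hu)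
  rwa [gam_UT_bot le_rfl (by norm_num), Subgroup.mem_bot] at this

end Pool.Agent.V1148.VG
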