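import Pool.Agent.V1148.VG.K

set_option autoImplicit false
set_option linter.deprecated false
set_option linter.unusedVariables false

open scoped commutatorElement

namespace Pool.Agent.V1148.VG

open Subgroup

section
variable {G : Type*} [Group G]

theorem bilL {u y : G} (hz : ∀ g, ⁅u, y⁆ * g = g * ⁅u, y⁆) (n : ℕ) : ⁅u ^ n, y⁆ = ⁅u, y⁆ ^ n := by
  induction n with
  | zero => simp
  | succ n ih =>
    have hz' : ∀ (k : ℕ) (g : G), ⁅u, y⁆ ^ k * g = g * ⁅u, y⁆ ^ k := fun k g =>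
      (Commute.pow_left (show Commute ⁅u, y⁆ g from hz g) k).eq
    rw [pow_succ' u, comm_mul_left, ih, ← hz' n u, mul_inv_cancel_right, pow_succ]

theorem bilR {u y : G} (hz : ∀ g, ⁅u, y⁆ * g = g * ⁅u, y⁆) (n : ℕ) : ⁅u, y ^ n⁆ = ⁅u, y⁆ ^ n := by
  induction n with
  | zero => simp
  | succ n ih =>
    have hz' : ∀ (k : ℕ) (g : G), ⁅u, y⁆ ^ k * g = g * ⁅u, y⁆ ^ k := fun k g =>
      (Commute.pow_left (show Commute ⁅u, y⁆ g from hz g) k).eq
    rw [pow_succ' y, comm_mul_right, ih, ← hz' n y, mul_inv_cancel_right, pow_succ']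

theorem bil {u y : G} (hz : ∀ g, ⁅u, y⁆ * g = g * ⁅u, y⁆) (n m : ℕ) :
    ⁅u ^ n, y ^ m⁆ = ⁅u, y⁆ ^ (n * m) := by
  have hz' : ∀ (k : ℕ) (g : G), ⁅u, y⁆ ^ k * g = g * ⁅u, y⁆ ^ k := fun k g =>
    (Commute.pow_left (show Commute ⁅u, y⁆ g from hz g) k).eq
  rw [bilR (by rw [bilL hz]; exact hz' n), bilL hz, pow_mul]

theorem clos {N : Subgroup G} [N.Normal] (τ : G →* G) (k : ℕ) {S : Set G}
    (hS : ∀ s ∈ S, (s : G ⧸ N) ^ k = (τ s : G))
    (hc : ∀ a ∈ closure S, ∀ b ∈ closure S, (a : G ⧸ N) * b = b * a) :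
    ∀ g ∈ closure S, (g : G ⧸ N) ^ k = (τ g : G) := by
  intro g hg
  induction hg using Subgroup.closure_induction with
  | mem s hs => exact hS s hs
  | one => simp
  | mul a b ha hb iha ihb =>
    rw [map_mul, QuotientGroup.mk_mul, QuotientGroup.mk_mul,
      (show Commute (a : G ⧸ N) b from hc a ha b hb).mul_pow, iha, ihb]
  | inv a _ iha => rw [map_inv, QuotientGroup.mk_inv, QuotientGroup.mk_inv, inv_pow, iha]

theorem scal {ι : Type*} (x : ι → G) (hx : closure (Set.range x) = ⊤) (τ : G →* G)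
    (hτ : ∀ i, τ (x i) = x i ^ 2) (m : ℕ) (hm : 1 ≤ m) :
    ∀ g ∈ gam G m, (g : G ⧸ gam G (m + 1)) ^ 2 ^ m = (τ g : G) := by
  have base : ∀ g ∈ gam G 1, (g : G ⧸ gam G 2) ^ 2 ^ 1 = (τ g : G) := by
    rw [gam_one, ← hx]
    refine clos τ _ ?_ ?_
    · rintro _ ⟨i, rfl⟩
      rw [hτ, QuotientGroup.mk_pow, pow_one]
    · intro a _ b _
      rw [← commutatorElement_eq_one_iff_mul_comm]
      exact (QuotientGroup.eq_one_iff _).2 (comm_mem_two a b)
  induction m, hm using Nat.le_induction with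
  | base => exact base
  | succ m hm ih =>
    have hcen : ∀ c ∈ gam G (m + 1), ∀ g : G ⧸ gam G (m + 1 + 1), (c : G ⧸ gam G (m + 1 + 1)) * g =
        g * c := by
      intro c hc g
      obtain ⟨h, rfl⟩ := QuotientGroup.mk_surjective g
      rw [← commutatorElement_eq_one_iff_mul_comm]
      exact (QuotientGroup.eq_one_iff _).2 (gam_mem hc (mem_gam_one h))
    have e : gam G (m + 1) = closure {g | ∃ g₁ ∈ gam G m, ∃ g₂ ∈ (⊤ : Subgroup G), ⁅g₁, g₂⁆ = g} := by
      rw [gam_succ m hm, Subgroup.commutator_def]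
    rw [e]
    refine clos τ _ ?_ ?_
    · rintro _ ⟨u, hu, y, _, rfl⟩
      obtain ⟨v, hv, hv2⟩ : ∃ v ∈ gam G (m + 1), τ u = u ^ 2 ^ m * v := by
        refine ⟨(u ^ 2 ^ m)⁻¹ * τ u, ?_, by group⟩
        have := ih u hu
        rw [← QuotientGroup.mk_pow] at this
        exact QuotientGroup.eq.1 this
      obtain ⟨v', hv', hv2'⟩ : ∃ v ∈ gam G 2, τ y = y ^ 2 * v := by
        refine ⟨(y ^ 2)⁻¹ * τ y, ?_, by group⟩
        have := base y (mem_gam_one y)
        rw [← QuotientGroup.mk_pow] at this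
        exact QuotientGroup.eq.1 this
      have h1 : ⁅u ^ 2 ^ m, v'⁆ ∈ gam G (m + 1 + 1) :=
        gam_mem (i := m) (j := 2) (pow_mem hu _) hv'
      have h2 : ⁅v, y ^ 2 * v'⁆ ∈ gam G (m + 1 + 1) := gam_mem hv (mem_gam_one _)
      have h3 : ((⁅u, y⁆ : G) : G ⧸ gam G (m + 1 + 1)) ^ 2 ^ (m + 1) =
          ((⁅u ^ 2 ^ m, y ^ 2⁆ : G) : G ⧸ gam G (m + 1 + 1)) := by
        have := bil (u := (u : G ⧸ gam G (m + 1 + 1))) (y := (y : G ⧸ gam G (m + 1 + 1)))
          (fun g => hcen ⁅u, y⁆ (gam_mem hu (mem_gam_one y)) g) (2 ^ m) 2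
        rw [← pow_succ] at this
        exact this.symm
      rw [h3, map_commutatorElement, hv2, hv2', comm_mul_left, comm_mul_right (u ^ 2 ^ m)]
      simp only [QuotientGroup.mk_mul, QuotientGroup.mk_inv]
      rw [(QuotientGroup.eq_one_iff _).2 h1, (QuotientGroup.eq_one_iff _).2 h2]
      simp
    · intro a ha b hb
      rw [← e] at ha
      exact hcen a ha b

end

/-! ### linearization -/

section
variable {n : ℕ}

def lam (i : Fin n) : FF n →* FF (n + 1) := FreeGroup.lift fun j =>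
  if j = i then FreeGroup.of i.castSucc * FreeGroup.of (Fin.last n) else FreeGroup.of j.castSucc

def io : FF n →* FF (n + 1) := FreeGroup.lift fun j => FreeGroup.of j.castSucc

def io' (i : Fin n) : FF n →* FF (n + 1) := FreeGroup.lift fun j =>
  if j = i then FreeGroup.of (Fin.last n) else FreeGroup.of j.castSucc

def Dev (i : Fin n) (w : FF n) : FF (n + 1) := lam i w * (io w)⁻¹ * (io' i w)⁻¹

theorem Dev_TT (i : Fin n) {w : FF n} (hT : TT w) : TT (Dev i w) := by
  intro φ
  rw [Dev, map_mul, map_mul, map_inv, map_inv]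
  exact mul_mem (mul_mem (hT (φ.comp (lam i))) (inv_mem (hT (φ.comp io))))
    (inv_mem (hT (φ.comp (io' i))))

theorem of_ne_last (j : Fin n) : Fin.last n ≠ j.castSucc := (Fin.castSucc_lt_last j).ne'

theorem Dev_er (i : Fin n) {w : FF n} (hπ : ∀ j, er j w ∈ PP (FF n)) (k : Fin (n + 1)) :
    er k (Dev i w) ∈ PP (FF (n + 1)) := by
  rw [Dev, map_mul, map_mul, map_inv, map_inv]
  induction k using Fin.lastCases with
  | last =>
    have e1 : (er (Fin.last n)).comp (lam i) = io := by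
      ext t
      simp only [MonoidHom.comp_apply, lam, io, er, FreeGroup.lift_apply_of]
      split_ifs with h
      · subst h
        simp [(of_ne_last t).symm]
      · simp [(of_ne_last t).symm]
    have e2 : (er (Fin.last n)).comp io = io := by
      ext t
      simp only [MonoidHom.comp_apply, io, er, FreeGroup.lift_apply_of]
      simp [(of_ne_last t).symm]
    have e3 : (er (Fin.last n)).comp (io' i) = io.comp (er i) := by
      ext t
      simp only [MonoidHom.comp_apply, io', io, er, FreeGroup.lift_apply_of]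
      split_ifs with h
      · simp
      · simp [(of_ne_last t).symm]
    have e1 := DFunLike.congr_fun e1 w
    have e2 := DFunLike.congr_fun e2 w
    have e3 := DFunLike.congr_fun e3 w
    simp only [MonoidHom.comp_apply] at e1 e2 e3
    rw [e1, e2, e3, mul_inv_cancel, one_mul]
    exact inv_mem (PP_mem_map io (hπ i))
  | cast j =>
    by_cases hji : j = i
    · subst hji
      have e1 : (er j.castSucc).comp (lam j) = io' j := by
        ext t
        simp only [MonoidHom.comp_apply, lam, io', er, FreeGroup.lift_apply_of]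
        split_ifs with h
        · simp [of_ne_last j]
        · simp [h]
      have e2 : (er j.castSucc).comp io = io.comp (er j) := by
        ext t
        simp only [MonoidHom.comp_apply, io, er, FreeGroup.lift_apply_of]
        by_cases h : t = j
        · simp [h]
        · simp [h]
      have e3 : (er j.castSucc).comp (io' j) = io' j := by
        ext t
        simp only [MonoidHom.comp_apply, io', er, FreeGroup.lift_apply_of]
        split_ifs with h
        · simp [of_ne_last j]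
        · simp [h]
      have e1 := DFunLike.congr_fun e1 w
      have e2 := DFunLike.congr_fun e2 w
      have e3 := DFunLike.congr_fun e3 w
      simp only [MonoidHom.comp_apply] at e1 e2 e3
      rw [e1, e2, e3]
      exact (inferInstance : (PP (FF (n + 1))).Normal).conj_mem _
        (inv_mem (PP_mem_map io (hπ j))) _
    · have e1 : (er j.castSucc).comp (lam i) = (lam i).comp (er j) := by
        ext t
        simp only [MonoidHom.comp_apply, lam, er, FreeGroup.lift_apply_of]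
        by_cases h : t = i
        · subst h
          have hjt : t ≠ j := fun h => hji h.symm
          simp [hjt, of_ne_last j]
        · by_cases h2 : t = j
          · subst h2; simp [h]
          · simp [h, h2]
      have e2 : (er j.castSucc).comp io = io.comp (er j) := by
        ext t
        simp only [MonoidHom.comp_apply, io, er, FreeGroup.lift_apply_of]
        by_cases h : t = j
        · simp [h]
        · simp [h]
      have e3 : (er j.castSucc).comp (io' i) = (io' i).comp (er j) := by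
        ext t
        simp only [MonoidHom.comp_apply, io', er, FreeGroup.lift_apply_of]
        by_cases h : t = i
        · subst h
          have hjt : t ≠ j := fun h => hji h.symm
          simp [hjt, of_ne_last j]
        · by_cases h2 : t = j
          · subst h2; simp [h]
          · simp [h, h2]
      have e1 := DFunLike.congr_fun e1 w
      have e2 := DFunLike.congr_fun e2 w
      have e3 := DFunLike.congr_fun e3 w
      simp only [MonoidHom.comp_apply] at e1 e2 e3
      rw [e1, e2, e3]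
      exact mul_mem (mul_mem (PP_mem_map _ (hπ j)) (inv_mem (PP_mem_map _ (hπ j))))
        (inv_mem (PP_mem_map _ (hπ j)))

/-- squaring the first `k` letters -/
def sqm (n k : ℕ) : FF n →* FF n := FreeGroup.lift fun j =>
  if (j : ℕ) < k then FreeGroup.of j ^ 2 else FreeGroup.of j

def zet (n k : ℕ) (i : Fin n) : FF (n + 1) →* FF n := FreeGroup.lift fun t =>
  Fin.lastCases (motive := fun _ => FF n) (FreeGroup.of i)
    (fun j => if (j : ℕ) < k then FreeGroup.of j ^ 2 else FreeGroup.of j) t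

theorem sq_pow (W : ∀ w : FF (n + 1), TT w → (∀ k, er k w ∈ PP (FF (n + 1))) →
    w ∈ PP (FF (n + 1))) {w : FF n} (hT : TT w) (hπ : ∀ i, er i w ∈ PP (FF n)) :
    ∀ k ≤ n, (sqm n k w : QQ n) = (w : QQ n) ^ 2 ^ k := by
  intro k
  induction k with
  | zero =>
    intro _
    have : sqm n 0 = MonoidHom.id _ := by
      ext t
      simp [sqm]
    rw [this]; simp
  | succ k ih =>
    intro hk
    have ih := ih (by omega)
    have h1 := W (Dev ⟨k, hk⟩ w) (Dev_TT _ hT) (Dev_er _ hπ)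
    have h2 := PP_mem_map (zet n k ⟨k, hk⟩) h1
    rw [Dev, map_mul, map_mul, map_inv, map_inv] at h2
    have e1 : (zet n k ⟨k, hk⟩).comp (lam ⟨k, hk⟩) = sqm n (k + 1) := by
      ext t
      simp only [MonoidHom.comp_apply, lam, zet, sqm, FreeGroup.lift_apply_of]
      by_cases h : t = ⟨k, hk⟩
      · subst h
        rw [if_pos rfl, map_mul, FreeGroup.lift_apply_of, FreeGroup.lift_apply_of,
          Fin.lastCases_castSucc, Fin.lastCases_last]
        simp [pow_two]
      · have h3 : (t : ℕ) ≠ k := fun h3 => h (Fin.ext h3)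
        have h4 : (t : ℕ) < k + 1 ↔ (t : ℕ) < k := by omega
        simp [h, h4]
    have e2 : (zet n k ⟨k, hk⟩).comp io = sqm n k := by
      ext t
      simp only [MonoidHom.comp_apply, io, zet, sqm, FreeGroup.lift_apply_of]
      simp
    have e3 : (zet n k ⟨k, hk⟩).comp (io' ⟨k, hk⟩) = sqm n k := by
      ext t
      simp only [MonoidHom.comp_apply, io', zet, sqm, FreeGroup.lift_apply_of]
      by_cases h : t = ⟨k, hk⟩
      · subst h
        simp
      · simp [h]
    have e1 := DFunLike.congr_fun e1 w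
    have e2 := DFunLike.congr_fun e2 w
    have e3 := DFunLike.congr_fun e3 w
    simp only [MonoidHom.comp_apply] at e1 e2 e3
    rw [e1, e2, e3, ← QuotientGroup.eq_one_iff, QuotientGroup.mk_mul, QuotientGroup.mk_mul,
      QuotientGroup.mk_inv, ih] at h2
    rw [pow_succ 2 k, pow_mul, pow_two]
    have h5 := mul_eq_one_iff_eq_inv.1 h2
    rw [inv_inv] at h5
    have h6 := mul_inv_eq_iff_eq_mul.1 h5
    exact h6

theorem sq_full (W : ∀ w : FF (n + 1), TT w → (∀ k, er k w ∈ PP (FF (n + 1))) →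
    w ∈ PP (FF (n + 1))) {w : FF n} (hT : TT w) (hπ : ∀ i, er i w ∈ PP (FF n)) :
    ∃ τ : QQ n →* QQ n, (∀ i, τ (xx n i) = xx n i ^ 2) ∧ τ (w : QQ n) = (w : QQ n) ^ 2 ^ n := by
  refine ⟨QuotientGroup.map _ _ (sqm n n) fun _ hg => PP_mem_map (sqm n n) hg, ?_, ?_⟩
  · intro i
    show ((sqm n n (FreeGroup.of i) : FF n) : QQ n) = _
    rw [sqm, FreeGroup.lift_apply_of, if_pos i.2]; rfl
  · exact sq_pow W hT hπ n le_rfl

end

theorem W5 (w : FF 5) (hT : TT w) (hπ : ∀ i, er i w ∈ PP (FF 5)) : w ∈ PP (FF 5) := S5 w hT hπ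

theorem W4 (w : FF 4) (hT : TT w) (hπ : ∀ i, er i w ∈ PP (FF 4)) : w ∈ PP (FF 4) := by
  have hP : PP (QQ 4) = ⊥ := PP_quot
  obtain ⟨τ, h1, h2⟩ := sq_full W5 hT hπ
  have h5 := S4 w hT hπ
  have h3 := scal (xx 4) (xx_gen 4) τ h1 5 (by norm_num) _ h5
  rw [h2] at h3
  have h4 : ((w : QQ 4) ^ 2 ^ 5)⁻¹ * (w : QQ 4) ^ 2 ^ 4 ∈ gam (QQ 4) 6 :=
    QuotientGroup.eq.1 h3
  rw [gam6_bot hP, Subgroup.mem_bot] at h4
  have h6 := exp_gam5 hP h5
  rw [← QuotientGroup.eq_one_iff]
  generalize (w : QQ 4) = g at h4 h6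
  have h7 : g ^ 16 = 1 := by
    have : (g ^ 2 ^ 5)⁻¹ * g ^ 2 ^ 4 = (g ^ 16)⁻¹ := by group
    rw [this] at h4
    exact inv_eq_one.1 h4
  have h8 : g ^ 16 = (g ^ 5) ^ 3 * g := by group
  rw [h8, h6, one_pow, one_mul] at h7
  exact h7

theorem W3 (w : FF 3) (hT : TT w) (hπ : ∀ i, er i w ∈ PP (FF 3)) : w ∈ PP (FF 3) := by
  have hP : PP (QQ 3) = ⊥ := PP_quot
  obtain ⟨τ, h1, h2⟩ := sq_full W4 hT hπ
  have h5 := S3 w hT hπ
  have h3 := scal (xx 3) (xx_gen 3) τ h1 4 (by norm_num) _ h5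
  rw [h2] at h3
  have h4 : ((w : QQ 3) ^ 2 ^ 4)⁻¹ * (w : QQ 3) ^ 2 ^ 3 ∈ gam (QQ 3) 5 :=
    QuotientGroup.eq.1 h3
  have h6 : (w : QQ 3) ^ 5 = 1 := exp_gam3 hP (gam_anti (by norm_num) h5)
  have h9 : (w : QQ 3) ∈ gam (QQ 3) 5 := by
    have e : (w : QQ 3) = (((w : QQ 3) ^ 2 ^ 4)⁻¹ * (w : QQ 3) ^ 2 ^ 3)⁻¹ ^ 2 *
        ((w : QQ 3) ^ 5)⁻¹ ^ 3 := by group
    rw [e, h6]
    simp only [inv_one, one_pow, mul_one]
    exact pow_mem (inv_mem h4) 2
  have h7 := scal (xx 3) (xx_gen 3) τ h1 5 (by norm_num) _ h9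
  rw [h2] at h7
  have h8 : ((w : QQ 3) ^ 2 ^ 5)⁻¹ * (w : QQ 3) ^ 2 ^ 3 ∈ gam (QQ 3) 6 :=
    QuotientGroup.eq.1 h7
  rw [gam6_bot hP, Subgroup.mem_bot] at h8
  rw [← QuotientGroup.eq_one_iff]
  generalize (w : QQ 3) = g at h8 h6
  have h10 : g = (g ^ 2 ^ 5)⁻¹ * g ^ 2 ^ 3 * (g ^ 5) ^ 5 := by group
  rw [h10, h8, h6]; simp

end Pool.Agent.V1148.VG
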