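import Pool.Agent.V1148.VG.L

set_option autoImplicit false
set_option linter.deprecated false
set_option linter.unusedVariables false

open scoped commutatorElement

namespace Pool.Agent.V1148.VG

open Subgroup

def rt {m : ℕ} (i : Fin (m + 1)) : FF (m + 1) →* FF m :=
  FreeGroup.lift fun j => i.insertNth (α := fun _ => FF m) 1 FreeGroup.of j

theorem rt_emb {m : ℕ} (i : Fin (m + 1)) :
    (FreeGroup.map i.succAbove).comp (rt i) = er i := by
  ext t
  rcases Fin.eq_self_or_eq_succAbove i t with rfl | ⟨j, rfl⟩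
  · simp [rt, er]
  · simp [rt, er, Fin.succAbove_ne]

theorem Wsmall {n : ℕ} (hn : n ≤ 2) (w : FF n) (hT : TT w) : w ∈ PP (FF n) := by
  have e : (FreeGroup.lift fun i : Fin 2 => if h : (i : ℕ) < n then FreeGroup.of (⟨i, h⟩ : Fin n)
      else 1 : FF 2 →* FF n).comp (FreeGroup.map (Fin.castLE hn)) = MonoidHom.id _ := by
    ext t
    simp
  have h1 := PP_mem_map (FreeGroup.lift fun i : Fin 2 => if h : (i : ℕ) < n then
    FreeGroup.of (⟨i, h⟩ : Fin n) else 1 : FF 2 →* FF n) (hT (FreeGroup.map (Fin.castLE hn)))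
  have h2 := DFunLike.congr_fun e w
  rw [MonoidHom.comp_apply] at h2
  rw [h2] at h1
  exact h1

theorem Wall : ∀ (n : ℕ) (w : FF n), TT w → w ∈ PP (FF n) := by
  intro n
  induction n with
  | zero => exact Wsmall (by norm_num)
  | succ m ih =>
    intro w hT
    have hπ : ∀ i, er i w ∈ PP (FF (m + 1)) := by
      intro i
      have h1 : TT (rt i w) := fun φ => hT (φ.comp (rt i))
      have h2 := PP_mem_map (FreeGroup.map i.succAbove) (ih _ h1)
      rw [← MonoidHom.comp_apply, rt_emb] at h2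
      exact h2
    rcases Nat.lt_or_ge (m + 1) 3 with h | h
    · exact Wsmall (by omega) w hT
    rcases Nat.lt_or_ge (m + 1) 6 with h6 | h6
    · obtain rfl | rfl | rfl : m = 2 ∨ m = 3 ∨ m = 4 := by omega
      · exact W3 w hT hπ
      · exact W4 w hT hπ
      · exact W5 w hT hπ
    · have h1 := mem_gam_of_erase (xx_gen (m + 1)) (erase (m + 1)) (pi_mk w hπ)
      rw [gam_bot PP_quot h6, Subgroup.mem_bot] at h1
      exact (QuotientGroup.eq_one_iff _).1 h1

/-- the free group of countably infinite rank -/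
abbrev FN := FreeGroup ℕ

theorem fin_supp (w : FN) : ∃ n, ∃ v : FF n, FreeGroup.map (Fin.val : Fin n → ℕ) v = w := by
  have up : ∀ {n m : ℕ} (h : n ≤ m) (v : FF n), FreeGroup.map (Fin.val : Fin m → ℕ)
      (FreeGroup.map (Fin.castLE h) v) = FreeGroup.map (Fin.val : Fin n → ℕ) v := by
    intro n m h v
    rw [← MonoidHom.comp_apply]
    congr 1
    ext t
    simp
  induction w using FreeGroup.induction_on with
  | C1 => exact ⟨0, 1, map_one _⟩
  | of x => exact ⟨x + 1, FreeGroup.of (Fin.last x), by simp⟩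
  | inv_of x _ => exact ⟨x + 1, (FreeGroup.of (Fin.last x))⁻¹, by simp⟩
  | mul a b iha ihb =>
    obtain ⟨n, u, rfl⟩ := iha
    obtain ⟨m, v, rfl⟩ := ihb
    refine ⟨max n m, FreeGroup.map (Fin.castLE (le_max_left n m)) u *
      FreeGroup.map (Fin.castLE (le_max_right n m)) v, ?_⟩
    rw [map_mul, up, up]

theorem WN (w : FN) (hT : ∀ φ : FN →* FF 2, φ w ∈ PP (FF 2)) : w ∈ PP FN := by
  obtain ⟨n, v, rfl⟩ := fin_supp w
  refine PP_mem_map _ (Wall n v ?_)
  intro φ
  let r : FN →* FF n := FreeGroup.lift fun k => if h : k < n then FreeGroup.of (⟨k, h⟩ : Fin n)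
    else 1
  have e : r.comp (FreeGroup.map (Fin.val : Fin n → ℕ)) = MonoidHom.id _ := by
    ext t
    simp [r]
  have h1 := hT (φ.comp r)
  have h2 := DFunLike.congr_fun e v
  rw [MonoidHom.comp_apply] at h2
  rw [MonoidHom.comp_apply, h2] at h1
  exact h1

theorem sur2 : ∃ r : FN →* FF 2, Function.Surjective r := by
  refine ⟨FreeGroup.map fun k => if k = 0 then 0 else 1, ?_⟩
  rw [← MonoidHom.range_eq_top, eq_top_iff, ← FreeGroup.closure_range_of, closure_le]
  rintro _ ⟨i, rfl⟩
  fin_cases i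
  · exact ⟨FreeGroup.of 0, by simp⟩
  · exact ⟨FreeGroup.of 1, by simp⟩

/-- the law of centre-by-metabelian type fails in a free group of rank 4 -/
theorem w0_not : (⁅⁅FreeGroup.of 0, FreeGroup.of 1⁆, ⁅FreeGroup.of 2, FreeGroup.of 3⁆⁆ : FN) ∉
    gam FN 5 ⊔ PP FN := by
  intro h
  let v : ℕ → ℕ → ZMod 5 := fun k i => if i = k then 1 else 0
  let f : FN →* UT 5 := FreeGroup.lift fun k => mkUT _ (sd_mem 5 (v k))
  have hL : ∀ k, Lead (f (FreeGroup.of k)) 1 (sd 5 (v k)) := by
    intro k
    have : f (FreeGroup.of k) = mkUT _ (sd_mem 5 (v k)) := FreeGroup.lift_apply_of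
    rw [this]
    exact mkUT_lead _ _
  have h1 := (hL 0).comm le_rfl le_rfl (hL 1)
  have h2 := (hL 2).comm le_rfl le_rfl (hL 3)
  have h3 := h1.comm (by norm_num) (by norm_num) h2
  have h4 : ¬ (5 : ℤ) ∣ 1 := by norm_num
  refine h4 (order_UT h3 (by decide) 1 ?_)
  rw [zpow_one]
  have hker : gam FN 5 ⊔ PP FN ≤ f.ker := by
    refine sup_le ?_ ?_
    · intro g hg
      have := map_mem_gam f hg
      rwa [gam_UT_bot le_rfl (by norm_num)] at this
    · intro g hg
      have h5 := PP_mem_map f hg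
      have h6 : PP (UT 5) ≤ gam (UT 5) 5 := by
        unfold PP
        rw [gam_succ 4 (by norm_num)]
        refine commutator_mono ?_ le_rfl
        refine sup_le (sup_le der2_gam (gam_anti (by norm_num))) ?_
        rw [closure_le]
        rintro _ ⟨c, hc, rfl⟩
        rw [UT_pow (by norm_num) hc]; exact one_mem _
      have h7 := h6 h5
      rwa [gam_UT_bot le_rfl (by norm_num)] at h7
  have h8 := hker h
  rw [MonoidHom.mem_ker, map_commutatorElement, map_commutatorElement, map_commutatorElement] at h8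
  exact h8

end Pool.Agent.V1148.VG
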